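import Pool.Agent.W_MP_fefad7_co.CWSharp.Param
import Pool.Agent.W_MP_fefad7_co.Sharp.BiasWC

/-!
# The threshold bias of the Client-Waiter game
-/

set_option autoImplicit false

namespace Pool.Agent.W_MP_fefad7_co.CWSharp

open Finset Filter Topology Asymptotics

/-- Lower half of the asymptotics for the Client-Waiter game. -/
theorem biasCW_lower (ε : ℝ) (hε : 0 < ε) : ∃ k0 : ℕ, ∀ k ≥ k0, ∀ᶠ n : ℕ in atTop,
    1 - ε ≤ 1 / (n : ℝ) * n.choose k * (biasCW n k : ℝ)⁻¹ / Real.log 2 := by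
  have hL2 : 0 < Real.log 2 := Real.log_pos (by norm_num)
  set ε' : ℝ := min (ε / 2) (1 / 2) with hε'
  have hε'0 : 0 < ε' := lt_min (by positivity) (by norm_num)
  have hε'1 : ε' ≤ ε / 2 := min_le_left _ _
  have hε'2 : ε' ≤ 1 / 2 := min_le_right _ _
  set χ : ℝ := (1 - ε') * Real.log 2 with hχ
  have hχ0 : 0 < χ := mul_pos (by linarith) hL2
  have hχ1 : χ < Real.log 2 := by rw [hχ]; nlinarith
  obtain ⟨k0, hk0⟩ := waiterWinsCW_sharp χ hχ0 hχ1
  refine ⟨max k0 2, ?_⟩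
  intro k hk
  have hk2 : 2 ≤ k := le_trans (le_max_right _ _) hk
  obtain ⟨n0, hn0⟩ := hk0 k (le_trans (le_max_left _ _) hk)
  have hfact : (0 : ℝ) < k.factorial := by exact_mod_cast Nat.factorial_pos k
  filter_upwards [eventually_ge_atTop n0, eventually_gt_atTop 0,
    Sharp.eventually_ratio k hk2 χ hχ0 ε' hε'0] with n hn hnpos hratio
  have hnR : (0 : ℝ) < n := by exact_mod_cast hnpos
  set X : ℝ := (n : ℝ) ^ (k - 1) / (k.factorial * χ) with hX
  have hX0 : 0 < X := by positivity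
  have hspec := biasCW_spec k n (by omega)
  have hble : biasCW n k ≤ ⌈X⌉₊ := by
    apply Nat.sInf_le
    refine ⟨Nat.one_le_iff_ne_zero.mpr (Nat.pos_iff_ne_zero.mp (Nat.ceil_pos.mpr hX0)), ?_⟩
    apply hn0 n hn
    have h1 : X ≤ ((⌈X⌉₊ + 1 : ℕ) : ℝ) := by
      push_cast
      have := Nat.le_ceil X
      linarith
    rw [div_le_iff₀ (by positivity)]
    have e : (n : ℝ) ^ k = n * (χ * (k.factorial * X)) := by
      have : (n : ℝ) ^ k = n * (n : ℝ) ^ (k - 1) := by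
        rw [← pow_succ', Nat.sub_add_cancel (by omega)]
      rw [hX, this]
      field_simp
    rw [e]
    calc (n : ℝ) * (χ * (k.factorial * X)) ≤ n * (χ * (k.factorial * ((⌈X⌉₊ + 1 : ℕ) : ℝ))) := by
          apply mul_le_mul_of_nonneg_left _ hnR.le
          apply mul_le_mul_of_nonneg_left _ hχ0.le
          exact mul_le_mul_of_nonneg_left h1 hfact.le
      _ = _ := by ring
  have h2 : (biasCW n k : ℝ) ≤ X + 1 := by
    calc (biasCW n k : ℝ) ≤ (⌈X⌉₊ : ℝ) := by exact_mod_cast hble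
      _ ≤ X + 1 := (Nat.ceil_lt_add_one hX0.le).le
  have h3 := hratio (biasCW n k) (by omega) h2
  have h4 : χ / Real.log 2 = 1 - ε' := by
    rw [hχ]
    field_simp
  rw [h4] at h3
  linarith

/-- **Client-Waiter game**: the normalised inverse bias is `1 + o_k(1)`. -/
theorem biasCW_sharp (ε : ℝ) (hε : 0 < ε) : ∃ k0 : ℕ, ∀ k ≥ k0, ∀ᶠ n : ℕ in atTop,
    |1 / (n : ℝ) * n.choose k * (biasCW n k : ℝ)⁻¹ / Real.log 2 - 1| ≤ ε := by
  obtain ⟨k0, hk0⟩ := biasCW_lower ε hε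
  refine ⟨max k0 2, ?_⟩
  intro k hk
  have hk2 : 2 ≤ k := le_trans (le_max_right _ _) hk
  filter_upwards [hk0 k (le_trans (le_max_left _ _) hk), biasCW_first_moment k hk2 ε hε]
    with n h1 h2
  have h3 := const_lt_one (k := k) (by omega)
  rw [abs_le]
  constructor
  · linarith
  · linarith

end Pool.Agent.W_MP_fefad7_co.CWSharp
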