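import Pool.Agent.W_MP_fefad7_co.Potential

/-!
# Forcing positions in the Client-Waiter game
-/

set_option autoImplicit false

namespace Pool.Agent.W_MP_fefad7_co.CWSharp

open Finset

variable {n : ℕ}

/-- Waiter can force the Client-Waiter game from `(U, X)` into a position satisfying `P`. -/
inductive Forces (q : ℕ) (P : Finset (Clause n) → Finset (Clause n) → Prop) :
    Finset (Clause n) → Finset (Clause n) → Prop
  | done (U X : Finset (Clause n)) (h : P U X) : Forces q P U X
  | offer (U X O : Finset (Clause n)) (hO : O ⊆ U) (hne : O.Nonempty) (hcard : O.card ≤ q + 1)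
      (h : ∀ c ∈ O, Forces q P (U \ O) (insert c X)) : Forces q P U X

lemma Forces.trans {q : ℕ} {P Q : Finset (Clause n) → Finset (Clause n) → Prop}
    {U X : Finset (Clause n)} (h : Forces q P U X) (hPQ : ∀ U X, P U X → Forces q Q U X) :
    Forces q Q U X := by
  induction h with
  | done U X h => exact hPQ U X h
  | offer U X O hO hne hcard _ ih => exact Forces.offer U X O hO hne hcard ih

lemma Forces.mono {q : ℕ} {P Q : Finset (Clause n) → Finset (Clause n) → Prop}
    {U X : Finset (Clause n)} (h : Forces q P U X) (hPQ : ∀ U X, P U X → Q U X) :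
    Forces q Q U X :=
  h.trans fun U X hP => Forces.done U X (hPQ U X hP)

lemma Forces.waiterWins {q : ℕ} {P : Finset (Clause n) → Finset (Clause n) → Prop}
    {U X : Finset (Clause n)} (h : Forces q P U X)
    (hP : ∀ U X, P U X → U = ∅ ∧ Satisfiable X) : WaiterWinsCW q U X := by
  induction h with
  | done U X h =>
    obtain ⟨rfl, h2⟩ := hP U X h
    exact WaiterWinsCW.final X h2
  | offer U X O hO hne hcard _ ih => exact WaiterWinsCW.offer U X O hO hne hcard ih

/-- The number of solutions of `X` violating `c`. -/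
def vm (X : Finset (Clause n)) (c : Clause n) : ℕ := ((sols X).filter fun s => c ∈ viol s).card

lemma sols_mono {X Y : Finset (Clause n)} (h : X ⊆ Y) : sols Y ⊆ sols X := by
  intro s hs
  rw [mem_sols] at hs ⊢
  exact fun c hc => hs c (h hc)

lemma vm_mono {X Y : Finset (Clause n)} (h : X ⊆ Y) (c : Clause n) : vm Y c ≤ vm X c :=
  Finset.card_le_card (Finset.filter_subset_filter _ (sols_mono h))

lemma card_sols_insert (X : Finset (Clause n)) (c : Clause n) :
    ((sols (insert c X)).card : ℝ) = (sols X).card - vm X c := by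
  have h := Finset.card_filter_add_card_filter_not (s := sols X) (fun s => c ∈ viol s)
  rw [sols_insert]
  unfold vm
  rw [eq_sub_iff_add_eq]
  have h2 : (((sols X).filter fun s => c ∉ viol s).card : ℝ) +
      (((sols X).filter fun s => c ∈ viol s).card : ℝ) = (sols X).card := by
    have : ((sols X).filter fun s => c ∉ viol s).card +
      ((sols X).filter fun s => c ∈ viol s).card = (sols X).card := by omega
    exact_mod_cast this
  exact h2

/-- Offering all the dangerous clauses at once. -/
lemma flush (q : ℕ) (P p1 : ℝ) (hP0 : 0 ≤ P) (hP1 : P ≤ 1 / 2) (hp1 : 0 ≤ p1)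
    (U1 R0 X : Finset (Clause n)) (hdisj : Disjoint U1 R0)
    (hsmall : ∀ c ∈ U1, (vm X c : ℝ) ≤ P * (sols X).card)
    (hcount : (U1.filter fun c => p1 * (sols X).card < (vm X c : ℝ)).card ≤ q + 1) :
    Forces q (fun U' X' => ∃ U1' ⊆ U1, U' = U1' ∪ R0 ∧ X ⊆ X' ∧ X' ⊆ X ∪ U1 ∧
      (1 - P) * (sols X).card ≤ (sols X').card ∧
      ∀ c ∈ U1', (vm X' c : ℝ) ≤ 2 * p1 * (sols X').card) (U1 ∪ R0) X := by
  classical
  set D := U1.filter fun c => p1 * (sols X).card < (vm X c : ℝ) with hD
  have hA0 : (0 : ℝ) ≤ (sols X).card := by positivity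
  rcases D.eq_empty_or_nonempty with hDe | hDne
  · refine Forces.done _ _ ⟨U1, Finset.Subset.refl _, rfl, Finset.Subset.refl _,
      Finset.subset_union_left, ?_, ?_⟩
    · nlinarith
    · intro c hc
      have : c ∉ D := by rw [hDe]; simp
      rw [hD, Finset.mem_filter] at this
      push Not at this
      have h2 := this hc
      nlinarith
  · refine Forces.offer _ _ D ((Finset.filter_subset _ _).trans Finset.subset_union_left) hDne
      hcount ?_
    intro c hc
    have hcU : c ∈ U1 := (Finset.mem_filter.mp hc).1
    have h1 := card_sols_insert X c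
    have h2 := hsmall c hcU
    have h3 : (1 - P) * (sols X).card ≤ (sols (insert c X)).card := by
      rw [h1]; linarith
    refine Forces.done _ _ ⟨U1 \ D, Finset.sdiff_subset, ?_, Finset.subset_insert _ _, ?_, h3, ?_⟩
    · ext x
      simp only [Finset.mem_sdiff, Finset.mem_union]
      constructor
      · rintro ⟨h4 | h4, h5⟩
        · exact Or.inl ⟨h4, h5⟩
        · exact Or.inr h4
      · rintro (⟨h4, h5⟩ | h4)
        · exact ⟨Or.inl h4, h5⟩
        · refine ⟨Or.inr h4, fun h5 => ?_⟩
          exact Finset.disjoint_left.mp hdisj (Finset.mem_filter.mp h5).1 h4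
    · intro x hx
      rcases Finset.mem_insert.mp hx with rfl | hx
      · exact Finset.mem_union_right _ hcU
      · exact Finset.mem_union_left _ hx
    · intro c' hc'
      rw [Finset.mem_sdiff] at hc'
      have h5 : (vm X c' : ℝ) ≤ p1 * (sols X).card := by
        by_contra hcon
        push Not at hcon
        exact hc'.2 (Finset.mem_filter.mpr ⟨hc'.1, hcon⟩)
      have h6 : (vm (insert c X) c' : ℝ) ≤ vm X c' := by
        exact_mod_cast vm_mono (Finset.subset_insert _ _) c'
      have h7 : (sols X).card ≤ 2 * ((sols (insert c X)).card : ℝ) := by nlinarith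
      nlinarith

end Pool.Agent.W_MP_fefad7_co.CWSharp
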