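import Pool.Agent.W_MP_fefad7_co.Count
import Pool.Agent.W_MP_fefad7_co.CWSharp.Force

/-!
# Few clauses are violated by a large part of a large set of assignments
-/

set_option autoImplicit false

namespace Pool.Agent.W_MP_fefad7_co.CWSharp

open Finset

variable {n : ℕ}

/-- The clauses of the board with all variables below `i1` and some variable at least `i0`. -/
def blk (k n i0 i1 : ℕ) : Finset (Clause n) :=
  (board k n).filter fun c => (∀ l ∈ c, l.1.val < i1) ∧ ∃ l ∈ c, i0 ≤ l.1.val

/-- The variables below `m` on which two assignments agree. -/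
def agr (m : ℕ) (σ τ : Fin n → Bool) : Finset (Fin n) :=
  Finset.univ.filter fun i => i.val < m ∧ σ i = τ i

/-- The variables below `m` on which two assignments differ. -/
def dis (m : ℕ) (σ τ : Fin n → Bool) : Finset (Fin n) :=
  Finset.univ.filter fun i => i.val < m ∧ σ i ≠ τ i

lemma card_below {m : ℕ} (hm : m ≤ n) :
    (Finset.univ.filter fun i : Fin n => i.val < m).card = m := by
  rw [Fin.card_filter_val_lt, min_eq_right hm]

lemma card_agr_add_card_dis (m : ℕ) (hm : m ≤ n) (σ τ : Fin n → Bool) :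
    (agr m σ τ).card + (dis m σ τ).card = m := by
  unfold agr dis
  rw [← Finset.card_union_of_disjoint]
  · have : (Finset.univ.filter fun i : Fin n => i.val < m ∧ σ i = τ i) ∪
        (Finset.univ.filter fun i : Fin n => i.val < m ∧ σ i ≠ τ i) =
        Finset.univ.filter fun i : Fin n => i.val < m := by
      ext i
      simp only [Finset.mem_union, Finset.mem_filter, Finset.mem_univ, true_and]
      by_cases h : σ i = τ i <;> simp [h]
    rw [this, card_below hm]
  · rw [Finset.disjoint_left]
    intro i hi hi'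
    exact (Finset.mem_filter.mp hi').2.2 (Finset.mem_filter.mp hi).2.2

lemma pair_count (k i0 i1 : ℕ) (σ τ : Fin n → Bool) :
    ((blk k n i0 i1).filter fun c => c ∈ viol σ ∧ c ∈ viol τ).card ≤
      (i1 - i0) * (agr i1 σ τ).card.choose (k - 1) := by
  classical
  set W : Finset (Fin n) := Finset.univ.filter fun i => i0 ≤ i.val ∧ i.val < i1 with hW
  have hWc : W.card ≤ i1 - i0 := by
    have : W.card ≤ (Finset.Ico i0 i1).card := by
      apply Finset.card_le_card_of_injOn (fun i : Fin n => i.val)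
      · intro i hi
        have := (Finset.mem_filter.mp hi).2
        exact Finset.mem_coe.mpr (Finset.mem_Ico.mpr this)
      · intro i _ j _ h
        exact Fin.ext h
    rwa [Nat.card_Ico] at this
  have hsub : ((blk k n i0 i1).filter fun c => c ∈ viol σ ∧ c ∈ viol τ) ⊆
      (W ×ˢ (agr i1 σ τ).powersetCard (k - 1)).image
        fun x => (insert x.1 x.2).map (falseLit σ) := by
    intro c hc
    rw [Finset.mem_filter] at hc
    obtain ⟨hcb, hcσ, hcτ⟩ := hc
    unfold blk at hcb
    rw [Finset.mem_filter] at hcb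
    obtain ⟨hcb, hlt, l0, hl0, hge⟩ := hcb
    have h1 : c ∈ board k n ∩ viol σ := Finset.mem_inter.mpr ⟨hcb, hcσ⟩
    rw [board_inter_viol, Finset.mem_map] at h1
    obtain ⟨S, hS, rfl⟩ := h1
    rw [Finset.mem_powersetCard] at hS
    simp only [Function.Embedding.coeFn_mk] at hlt hl0 hcτ
    have hlt' : ∀ i ∈ S, i.val < i1 := by
      intro i hi
      exact hlt (falseLit σ i) (Finset.mem_map_of_mem _ hi)
    have hagr : ∀ i ∈ S, i ∈ agr i1 σ τ := by
      intro i hi
      unfold agr
      rw [Finset.mem_filter]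
      refine ⟨Finset.mem_univ _, hlt' i hi, ?_⟩
      rw [mem_viol] at hcτ
      have := hcτ (falseLit σ i) (Finset.mem_map_of_mem _ hi)
      rw [falseLit_apply] at this
      cases h1 : σ i <;> cases h2 : τ i <;> simp_all
    rw [Finset.mem_map] at hl0
    obtain ⟨v, hv, rfl⟩ := hl0
    rw [Finset.mem_image]
    refine ⟨(v, S.erase v), ?_, ?_⟩
    · rw [Finset.mem_product, Finset.mem_powersetCard]
      refine ⟨Finset.mem_filter.mpr ⟨Finset.mem_univ _, hge, hlt' v hv⟩, ?_, ?_⟩
      · intro i hi
        exact hagr i (Finset.mem_of_mem_erase hi)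
      · rw [Finset.card_erase_of_mem hv, hS.2]
    · simp only [Function.Embedding.coeFn_mk]
      rw [Finset.insert_erase hv]
  calc _ ≤ ((W ×ˢ (agr i1 σ τ).powersetCard (k - 1)).image
        fun x => (insert x.1 x.2).map (falseLit σ)).card := Finset.card_le_card hsub
    _ ≤ (W ×ˢ (agr i1 σ τ).powersetCard (k - 1)).card := Finset.card_image_le
    _ = W.card * (agr i1 σ τ).card.choose (k - 1) := by
        rw [Finset.card_product, Finset.card_powersetCard]
    _ ≤ _ := Nat.mul_le_mul_right _ hWc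

/-- Generating function of the distance. -/
lemma sum_pow_dis (m : ℕ) (hm : m ≤ n) (σ : Fin n → Bool) (y : ℝ) :
    ∑ τ : Fin n → Bool, y ^ (dis m σ τ).card = (1 + y) ^ m * 2 ^ (n - m) := by
  classical
  have h1 : ∀ τ : Fin n → Bool, y ^ (dis m σ τ).card =
      ∏ i, if i.val < m ∧ σ i ≠ τ i then y else 1 := by
    intro τ
    rw [Finset.prod_ite, Finset.prod_const, Finset.prod_const_one, mul_one]
    rfl
  rw [Finset.sum_congr rfl fun τ _ => h1 τ]
  have h2 := Finset.prod_univ_sum (fun _ : Fin n => (Finset.univ : Finset Bool))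
    (fun (i : Fin n) (b : Bool) => if i.val < m ∧ σ i ≠ b then y else (1 : ℝ))
  rw [Fintype.piFinset_univ] at h2
  rw [← h2]
  have h3 : ∀ i : Fin n, ∑ b : Bool, (if i.val < m ∧ σ i ≠ b then y else (1 : ℝ)) =
      if i.val < m then 1 + y else 2 := by
    intro i
    rw [Fintype.sum_bool]
    by_cases h : i.val < m
    · cases hσ : σ i <;> simp [h] <;> ring
    · simp [h]; norm_num
  rw [Finset.prod_congr rfl fun i _ => h3 i, Finset.prod_ite, Finset.prod_const, Finset.prod_const,
    card_below hm]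
  congr 2
  have h4 := Finset.card_filter_add_card_filter_not (s := (Finset.univ : Finset (Fin n)))
    (fun i : Fin n => i.val < m)
  rw [card_below hm, Finset.card_univ, Fintype.card_fin] at h4
  omega

lemma card_close (m a0 : ℕ) (hm : m ≤ n) (ha : a0 < m) (σ : Fin n → Bool) (y : ℝ) (hy0 : 0 ≤ y)
    (hy1 : y ≤ 1) :
    ((Finset.univ.filter fun τ : Fin n → Bool => a0 < (agr m σ τ).card).card : ℝ) * y ^ (m - a0) ≤
      (1 + y) ^ m * 2 ^ (n - m) := by
  rw [← sum_pow_dis m hm σ y, ← nsmul_eq_mul]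
  calc (Finset.univ.filter fun τ : Fin n → Bool => a0 < (agr m σ τ).card).card • y ^ (m - a0) ≤
      ∑ τ ∈ Finset.univ.filter fun τ : Fin n → Bool => a0 < (agr m σ τ).card,
        y ^ (dis m σ τ).card := by
        apply Finset.card_nsmul_le_sum
        intro τ hτ
        have h1 := (Finset.mem_filter.mp hτ).2
        have h2 := card_agr_add_card_dis m hm σ τ
        exact pow_le_pow_of_le_one hy0 hy1 (by omega)
    _ ≤ _ := Finset.sum_le_sum_of_subset_of_nonneg (Finset.filter_subset _ _)
        fun _ _ _ => by positivity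

lemma sum_sq_vm (X D : Finset (Clause n)) :
    ∑ c ∈ D, (vm X c : ℝ) ^ 2 = ∑ σ ∈ sols X, ∑ τ ∈ sols X,
      ((D.filter fun c => c ∈ viol σ ∧ c ∈ viol τ).card : ℝ) := by
  have h1 : ∀ c ∈ D, (vm X c : ℝ) ^ 2 = ∑ σ ∈ sols X, ∑ τ ∈ sols X,
      if c ∈ viol σ ∧ c ∈ viol τ then (1 : ℝ) else 0 := by
    intro c _
    have h2 : (vm X c : ℝ) = ∑ σ ∈ sols X, if c ∈ viol σ then (1 : ℝ) else 0 := by
      unfold vm
      rw [← Finset.sum_filter, Finset.sum_const, nsmul_eq_mul, mul_one]
    rw [sq, h2, Finset.sum_mul_sum]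
    refine Finset.sum_congr rfl fun σ _ => Finset.sum_congr rfl fun τ _ => ?_
    by_cases ha : c ∈ viol σ <;> by_cases hb : c ∈ viol τ <;> simp [ha, hb]
  rw [Finset.sum_congr rfl h1, Finset.sum_comm]
  refine Finset.sum_congr rfl fun σ _ => ?_
  rw [Finset.sum_comm]
  refine Finset.sum_congr rfl fun τ _ => ?_
  rw [← Finset.sum_filter, Finset.sum_const, nsmul_eq_mul, mul_one]

/-- **Counting the dangerous clauses.** -/
theorem danger_count (k i0 i1 G a0 : ℕ) (hi1 : i1 ≤ n) (hG : i1 - i0 ≤ G)
    (X D : Finset (Clause n)) (hD : D ⊆ blk k n i0 i1) (y C0 p1 : ℝ) (hy0 : 0 < y) (hy1 : y ≤ 1)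
    (hA : 0 < (sols X).card) (hp1 : 0 ≤ p1)
    (hC0 : ((a0.choose (k - 1) : ℕ) : ℝ) ≤ C0)
    (hbig : a0 < i1 → (1 + y) ^ i1 * 2 ^ (n - i1) * (n.choose (k - 1) : ℕ) ≤
      (sols X).card * (y ^ (i1 - a0) * C0))
    (hdang : ∀ c ∈ D, p1 * (sols X).card < (vm X c : ℝ)) :
    (D.card : ℝ) * p1 ^ 2 ≤ G * (2 * C0) := by
  have hA' : (0 : ℝ) < (sols X).card := by exact_mod_cast hA
  -- lower bound
  have h1 : (D.card : ℝ) * (p1 * (sols X).card) ^ 2 ≤ ∑ c ∈ D, (vm X c : ℝ) ^ 2 := by
    rw [← nsmul_eq_mul]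
    apply Finset.card_nsmul_le_sum
    intro c hc
    exact pow_le_pow_left₀ (by positivity) (hdang c hc).le 2
  -- upper bound
  have h2 : ∀ σ ∈ sols X, ∑ τ ∈ sols X,
      ((D.filter fun c => c ∈ viol σ ∧ c ∈ viol τ).card : ℝ) ≤
        G * ((sols X).card * (2 * C0)) := by
    intro σ _
    have h3 : ∀ τ ∈ sols X, ((D.filter fun c => c ∈ viol σ ∧ c ∈ viol τ).card : ℝ) ≤
        G * (C0 + if a0 < (agr i1 σ τ).card then ((n.choose (k - 1) : ℕ) : ℝ) else 0) := by
      intro τ _
      have h4 : (D.filter fun c => c ∈ viol σ ∧ c ∈ viol τ).card ≤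
          G * (agr i1 σ τ).card.choose (k - 1) :=
        (Finset.card_le_card (Finset.filter_subset_filter _ hD)).trans
          ((pair_count k i0 i1 σ τ).trans (Nat.mul_le_mul_right _ hG))
      have h5 : ((D.filter fun c => c ∈ viol σ ∧ c ∈ viol τ).card : ℝ) ≤
          G * ((agr i1 σ τ).card.choose (k - 1) : ℕ) := by exact_mod_cast h4
      refine h5.trans ?_
      apply mul_le_mul_of_nonneg_left _ (by positivity)
      split_ifs with h
      · have h6 : (agr i1 σ τ).card ≤ n := by
          have := Finset.card_le_univ (agr i1 σ τ)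
          rwa [Fintype.card_fin] at this
        have h7 : (((agr i1 σ τ).card.choose (k - 1) : ℕ) : ℝ) ≤ ((n.choose (k - 1) : ℕ) : ℝ) := by
          exact_mod_cast Nat.choose_le_choose _ h6
        have h8 : (0 : ℝ) ≤ C0 := le_trans (by positivity) hC0
        linarith
      · push Not at h
        have h7 : (((agr i1 σ τ).card.choose (k - 1) : ℕ) : ℝ) ≤ ((a0.choose (k - 1) : ℕ) : ℝ) := by
          exact_mod_cast Nat.choose_le_choose _ h
        linarith
    refine (Finset.sum_le_sum h3).trans ?_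
    rw [← Finset.mul_sum]
    apply mul_le_mul_of_nonneg_left _ (by positivity)
    rw [Finset.sum_add_distrib, Finset.sum_const, nsmul_eq_mul, ← Finset.sum_filter,
      Finset.sum_const, nsmul_eq_mul]
    have h9 : (((sols X).filter fun τ => a0 < (agr i1 σ τ).card).card : ℝ) *
        ((n.choose (k - 1) : ℕ) : ℝ) ≤ (sols X).card * C0 := by
      by_cases hai : a0 < i1
      · have h10 := card_close i1 a0 hi1 hai σ y hy0.le hy1
        have h11 : (((sols X).filter fun τ => a0 < (agr i1 σ τ).card).card : ℝ) ≤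
            ((Finset.univ.filter fun τ : Fin n → Bool => a0 < (agr i1 σ τ).card).card : ℝ) := by
          exact_mod_cast Finset.card_le_card (Finset.filter_subset_filter _ (Finset.subset_univ _))
        have h12 := hbig hai
        have hyp : 0 < y ^ (i1 - a0) := by positivity
        have h13 : (((sols X).filter fun τ => a0 < (agr i1 σ τ).card).card : ℝ) * y ^ (i1 - a0) *
            ((n.choose (k - 1) : ℕ) : ℝ) ≤ (sols X).card * (y ^ (i1 - a0) * C0) := by
          refine le_trans ?_ h12
          apply mul_le_mul_of_nonneg_right _ (by positivity)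
          exact (mul_le_mul_of_nonneg_right h11 hyp.le).trans h10
        have h14 : y ^ (i1 - a0) * ((((sols X).filter fun τ => a0 < (agr i1 σ τ).card).card : ℝ) *
            ((n.choose (k - 1) : ℕ) : ℝ)) ≤ y ^ (i1 - a0) * ((sols X).card * C0) := by
          calc _ = (((sols X).filter fun τ => a0 < (agr i1 σ τ).card).card : ℝ) * y ^ (i1 - a0) *
            ((n.choose (k - 1) : ℕ) : ℝ) := by ring
            _ ≤ _ := h13
            _ = _ := by ring
        exact le_of_mul_le_mul_left h14 hyp
      · push Not at hai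
        have h10 : ((sols X).filter fun τ => a0 < (agr i1 σ τ).card) = ∅ := by
          apply Finset.filter_eq_empty_iff.mpr
          intro τ _
          have := card_agr_add_card_dis i1 hi1 σ τ
          omega
        rw [h10]
        have h8 : (0 : ℝ) ≤ C0 := le_trans (by positivity) hC0
        simp only [Finset.card_empty, Nat.cast_zero, zero_mul]
        positivity
    nlinarith
  have h3 : ∑ c ∈ D, (vm X c : ℝ) ^ 2 ≤ (sols X).card * (G * ((sols X).card * (2 * C0))) := by
    rw [sum_sq_vm, ← nsmul_eq_mul]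
    exact Finset.sum_le_card_nsmul _ _ _ h2
  have h4 : (D.card : ℝ) * p1 ^ 2 * ((sols X).card : ℝ) ^ 2 ≤
      G * (2 * C0) * ((sols X).card : ℝ) ^ 2 := by
    calc (D.card : ℝ) * p1 ^ 2 * ((sols X).card : ℝ) ^ 2 =
        (D.card : ℝ) * (p1 * (sols X).card) ^ 2 := by ring
      _ ≤ _ := h1
      _ ≤ _ := h3
      _ = _ := by ring
  exact le_of_mul_le_mul_right h4 (by positivity)

end Pool.Agent.W_MP_fefad7_co.CWSharp
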