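import Pool.Agent.W_MP_fefad7_co.CWSharp.SubBlock
import Pool.Agent.W_MP_fefad7_co.CWSharp.Danger

/-!
# Playing one block of fresh variables
-/

set_option autoImplicit false

namespace Pool.Agent.W_MP_fefad7_co.CWSharp

open Finset

variable {n : ℕ}

/-- The clauses of the board whose variable set belongs to `S`. -/
def cl (k : ℕ) (S : Finset (Finset (Fin n))) : Finset (Clause n) :=
  (board k n).filter fun c => c.image Prod.fst ∈ S

lemma viol_eq_map {k : ℕ} {σ : Fin n → Bool} {c : Clause n} (hc : c ∈ board k n)
    (hv : c ∈ viol σ) : c = (c.image Prod.fst).map (falseLit σ) := by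
  have h1 : c ∈ board k n ∩ viol σ := Finset.mem_inter.mpr ⟨hc, hv⟩
  rw [board_inter_viol, Finset.mem_map] at h1
  obtain ⟨S, _, rfl⟩ := h1
  simp only [Function.Embedding.coeFn_mk]
  congr 1
  ext i
  simp only [Finset.mem_image, Finset.mem_map]
  constructor
  · intro hi
    exact ⟨falseLit σ i, ⟨i, hi, rfl⟩, rfl⟩
  · rintro ⟨l, ⟨j, hj, rfl⟩, rfl⟩
    exact hj

lemma card_cl_inter_viol (k : ℕ) (S : Finset (Finset (Fin n))) (σ : Fin n → Bool) :
    (cl k S ∩ viol σ).card ≤ S.card := by
  apply Finset.card_le_card_of_injOn (fun c => c.image Prod.fst)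
  · intro c hc
    exact (Finset.mem_filter.mp (Finset.mem_inter.mp hc).1).2
  · intro c hc d hd h
    have hc1 := Finset.mem_inter.mp hc
    have hd1 := Finset.mem_inter.mp hd
    rw [viol_eq_map (Finset.mem_filter.mp hc1.1).1 hc1.2,
      viol_eq_map (Finset.mem_filter.mp hd1.1).1 hd1.2]
    simp only at h
    rw [h]

lemma card_cl (k : ℕ) (S : Finset (Finset (Fin n))) : (cl k S).card ≤ 2 ^ k * S.card := by
  classical
  apply Finset.card_le_mul_card_image_of_maps_to (f := fun c : Clause n => c.image Prod.fst)
  · intro c hc
    exact (Finset.mem_filter.mp hc).2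
  · intro A _
    rcases ((cl k S).filter fun c => c.image Prod.fst = A).eq_empty_or_nonempty with he | ⟨c0, hc0⟩
    · rw [he]; simp
    · have hA : A.card = k := by
        rw [Finset.mem_filter] at hc0
        have h1 := mem_board.mp (Finset.mem_filter.mp hc0.1).1
        rw [← hc0.2, Finset.card_image_of_injOn, h1.1]
        intro l hl l' hl' h
        exact h1.2 l hl l' hl' h
      rw [← hA, ← Finset.card_powerset]
      apply Finset.card_le_card_of_injOn
        (fun c : Clause n => (c.filter fun l => l.2 = true).image Prod.fst)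
      · intro c hc
        rw [Finset.mem_coe, Finset.mem_filter] at hc
        rw [Finset.mem_coe, Finset.mem_powerset, ← hc.2]
        exact Finset.image_subset_image (Finset.filter_subset _ _)
      · intro c hc d hd h
        rw [Finset.mem_coe, Finset.mem_filter] at hc hd
        simp only at h
        have hcb := (mem_board.mp (Finset.mem_filter.mp hc.1).1).2
        have hdb := (mem_board.mp (Finset.mem_filter.mp hd.1).1).2
        -- membership in terms of the positive part
        have key : ∀ (e : Clause n), (∀ l ∈ e, ∀ l' ∈ e, l.1 = l'.1 → l = l') →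
            e.image Prod.fst = A → ∀ l : Literal n, l ∈ e ↔ l.1 ∈ A ∧
              (l.2 = true ↔ l.1 ∈ (e.filter fun l => l.2 = true).image Prod.fst) := by
          intro e he heA l
          constructor
          · intro hl
            refine ⟨heA ▸ Finset.mem_image_of_mem _ hl, ?_⟩
            constructor
            · intro h2
              exact Finset.mem_image.mpr ⟨l, Finset.mem_filter.mpr ⟨hl, h2⟩, rfl⟩
            · intro h2
              obtain ⟨l', hl', h3⟩ := Finset.mem_image.mp h2
              rw [Finset.mem_filter] at hl'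
              have := he l' hl'.1 l hl h3
              rw [← this]; exact hl'.2
          · rintro ⟨h1, h2⟩
            rw [← heA] at h1
            obtain ⟨l', hl', h3⟩ := Finset.mem_image.mp h1
            have h4 : l'.2 = l.2 := by
              by_cases hb : l.2 = true
              · rw [hb]
                obtain ⟨l'', hl'', h5⟩ := Finset.mem_image.mp (h2.mp hb)
                rw [Finset.mem_filter] at hl''
                have := he l'' hl''.1 l' hl' (by rw [h5, h3])
                rw [← this]; exact hl''.2
              · have hb' : l.2 = false := by simpa using hb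
                rw [hb']
                by_contra hcon
                have hl't : l'.2 = true := by simpa using hcon
                exact hb (h2.mpr (Finset.mem_image.mpr
                  ⟨l', Finset.mem_filter.mpr ⟨hl', hl't⟩, h3⟩))
            have h5 : l' = l := Prod.ext h3 h4
            rw [← h5]; exact hl'
        ext l
        rw [key c hcb hc.2 l, key d hdb hd.2 l, h]

lemma SB.mono {q : ℕ} {lam δ P2 pmin : ℝ} {s s' K J R : ℕ} (h : SB q lam δ P2 pmin s K J R)
    (hs : s' ≤ s) : SB q lam δ P2 pmin s' K J R where
  lam_pos := h.lam_pos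
  δ_pos := h.δ_pos
  P2_nonneg := h.P2_nonneg
  P2_le := h.P2_le
  pmin_pos := h.pmin_pos
  pmin_le := h.pmin_le
  hJ := h.hJ
  hK := h.hK
  key := by
    refine le_trans ?_ h.key
    have h1 : ((q + 1 : ℕ) : ℝ) < K := by exact_mod_cast h.hK
    have h2 : (s' : ℝ) ≤ s := by exact_mod_cast hs
    have h3 : ((q + 1 : ℕ) : ℝ) * s' / (K - ((q + 1 : ℕ) : ℝ)) ≤
        ((q + 1 : ℕ) : ℝ) * s / (K - ((q + 1 : ℕ) : ℝ)) := by
      apply div_le_div_of_nonneg_right _ (by linarith)
      exact mul_le_mul_of_nonneg_left h2 (by positivity)
    have := mul_le_mul_of_nonneg_left h3 h.lam_pos.le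
    linarith
  hR := h.hR

section Inner

variable {q k : ℕ} {lam δ P2 pmin : ℝ} {s K J R : ℕ}

/-- The potential budget needed for the remaining variable sets. -/
noncomputable def budget (LB c1 c3 : ℝ) (S : Finset (Finset (Fin n))) : ℝ :=
  LB + c1 * S.card + if S = ∅ then 0 else c3

lemma LB_le_budget {LB c1 c3 : ℝ} (h1 : 0 ≤ c1) (h3 : 0 ≤ c3) (S : Finset (Finset (Fin n))) :
    LB ≤ budget LB c1 c3 S := by
  unfold budget
  have : 0 ≤ c1 * (S.card : ℝ) := by positivity
  split_ifs <;> linarith

theorem inner (h : SB q lam δ P2 pmin s K J R) (hs1 : 1 ≤ s) (p1 c1 c3 LB : ℝ) (hp1 : 0 ≤ p1)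
    (hc3 : c3 = 2 * P2 * R + 2 * P2)
    (hc1 : lam + 2 * pmin * 2 ^ k / ((q + 1 : ℕ) : ℝ) + c3 / s ≤ c1)
    (hTP : 2 * p1 * Real.exp (c1 * s + c3) ≤ P2)
    (i0 i1 : ℕ) (R0 : Finset (Clause n))
    (hcount : ∀ X D : Finset (Clause n), D ⊆ blk k n i0 i1 → Real.exp LB ≤ (sols X).card →
      (∀ c ∈ D, p1 * (sols X).card < (vm X c : ℝ)) → D.card ≤ q + 1) :
    ∀ (N : ℕ) (S : Finset (Finset (Fin n))) (U1 X : Finset (Clause n)), S.card ≤ N →
      U1 ⊆ cl k S → U1 ⊆ blk k n i0 i1 → Disjoint U1 R0 →
      (∀ c ∈ U1, (vm X c : ℝ) ≤ 2 * p1 * (sols X).card) →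
      Real.exp (budget LB c1 c3 S) ≤ (sols X).card →
      Forces q (fun U' X' => U' = R0 ∧ X ⊆ X' ∧ X' ⊆ X ∪ U1 ∧ Real.exp LB ≤ (sols X').card)
        (U1 ∪ R0) X := by
  classical
  have hlam := h.lam_pos
  have hP20 := h.P2_nonneg
  have hpm := h.pmin_pos.le
  have hQ : (0 : ℝ) < ((q + 1 : ℕ) : ℝ) := by positivity
  have hc30 : 0 ≤ c3 := by rw [hc3]; positivity
  have hs0 : (0 : ℝ) < s := by exact_mod_cast hs1
  have h2p1 : 0 ≤ 2 * p1 := by positivity
  have hc10 : 0 ≤ c1 := by
    refine le_trans ?_ hc1
    have : 0 ≤ 2 * pmin * 2 ^ k / ((q + 1 : ℕ) : ℝ) := by positivity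
    positivity
  intro N
  induction N with
  | zero =>
    intro S U1 X hN hU1 _ _ _ hA
    have hS : S = ∅ := Finset.card_eq_zero.mp (by omega)
    subst hS
    have hU : U1 = ∅ := by
      apply Finset.subset_empty.mp
      refine hU1.trans ?_
      unfold cl
      intro c hc
      simp at hc
    subst hU
    refine Forces.done _ _ ⟨Finset.empty_union _, Finset.Subset.refl _,
      Finset.subset_union_left, ?_⟩
    exact (Real.exp_le_exp.mpr (LB_le_budget hc10 hc30 _)).trans hA
  | succ N ih =>
    intro S U1 X hN hU1 hU1b hdis hvm hA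
    rcases S.eq_empty_or_nonempty with hS | hSne
    · subst hS
      have hU : U1 = ∅ := by
        apply Finset.subset_empty.mp
        refine hU1.trans ?_
        unfold cl
        intro c hc
        simp at hc
      subst hU
      refine Forces.done _ _ ⟨Finset.empty_union _, Finset.Subset.refl _,
        Finset.subset_union_left, ?_⟩
      exact (Real.exp_le_exp.mpr (LB_le_budget hc10 hc30 _)).trans hA
    · obtain ⟨S1, hS1, hS1c⟩ := Finset.exists_subset_card_eq
        (show min s S.card ≤ S.card from min_le_right _ _)
      have hSpos : 0 < S.card := Finset.card_pos.mpr hSne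
      have hS1s : S1.card ≤ s := by rw [hS1c]; exact min_le_left _ _
      have hS1pos : 0 < S1.card := by rw [hS1c]; exact lt_min (by omega) hSpos
      set F := U1.filter fun c => c.image Prod.fst ∈ S1 with hF
      set U2 := U1.filter fun c => c.image Prod.fst ∉ S1 with hU2
      have hFU : F ⊆ U1 := Finset.filter_subset _ _
      have hU2U : U2 ⊆ U1 := Finset.filter_subset _ _
      have hunion : U1 ∪ R0 = F ∪ (U2 ∪ R0) := by
        rw [← Finset.union_assoc, hF, hU2, Finset.filter_union_filter_not_eq]
      have hdis2 : Disjoint F (U2 ∪ R0) := by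
        rw [Finset.disjoint_union_right]
        refine ⟨Finset.disjoint_filter_filter_not _ _ _, Disjoint.mono_left hFU hdis⟩
      have hFcl : F ⊆ cl k S1 := by
        intro c hc
        rw [hF, Finset.mem_filter] at hc
        exact Finset.mem_filter.mpr ⟨(Finset.mem_filter.mp (hU1 hc.1)).1, hc.2⟩
      have hFcard : (F.card : ℝ) ≤ 2 ^ k * S1.card := by
        have : F.card ≤ 2 ^ k * S1.card := (Finset.card_le_card hFcl).trans (card_cl k S1)
        exact_mod_cast this
      have hApos : (0 : ℝ) < (sols X).card := lt_of_lt_of_le (Real.exp_pos _) hA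
      -- the loss in the sub-block
      set T : ℝ := lam * S1.card + 2 * pmin * (F.card / ((q + 1 : ℕ) : ℝ)) + 2 * P2 * R with hT
      have hTle : T + 2 * P2 ≤ (lam + 2 * pmin * 2 ^ k / ((q + 1 : ℕ) : ℝ)) * S1.card + c3 := by
        have h1 : 2 * pmin * (F.card / ((q + 1 : ℕ) : ℝ)) ≤
            2 * pmin * ((2 ^ k * S1.card) / ((q + 1 : ℕ) : ℝ)) := by
          apply mul_le_mul_of_nonneg_left _ (by positivity)
          exact div_le_div_of_nonneg_right hFcard hQ.le
        have h2 : 2 * pmin * ((2 ^ k * S1.card) / ((q + 1 : ℕ) : ℝ)) =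
            2 * pmin * 2 ^ k / ((q + 1 : ℕ) : ℝ) * S1.card := by ring
        rw [hT, hc3]
        linarith
      have hbase : (lam + 2 * pmin * 2 ^ k / ((q + 1 : ℕ) : ℝ)) * S1.card ≤ c1 * S1.card := by
        apply mul_le_mul_of_nonneg_right _ (Nat.cast_nonneg _)
        have : 0 ≤ c3 / s := div_nonneg hc30 hs0.le
        linarith
      have hTmax : T ≤ c1 * s + c3 := by
        have h1 : c1 * (S1.card : ℝ) ≤ c1 * s :=
          mul_le_mul_of_nonneg_left (by exact_mod_cast hS1s) hc10
        linarith
      have hTP' : 2 * p1 * Real.exp T ≤ P2 := by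
        refine le_trans ?_ hTP
        exact mul_le_mul_of_nonneg_left (Real.exp_le_exp.mpr hTmax) h2p1
      rw [hunion]
      refine (subblock (h.mono hS1s) (U2 ∪ R0) F X hdis2 (2 * p1) T (by exact_mod_cast hApos)
        (fun c hc => hvm c (hFU hc)) (fun σ _ => ?_) hT hTP' h2p1).trans ?_
      · exact (Finset.card_le_card (Finset.inter_subset_inter_right hFcl)).trans
          (card_cl_inter_viol k S1 σ)
      · rintro U' X1 ⟨rfl, hX1a, hX1b, hX1c⟩
        -- lower bound for the number of solutions
        have hloss : ∀ z : ℝ, Real.exp (budget LB c1 c3 S) ≤ z →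
            Real.exp (budget LB c1 c3 (S \ S1)) ≤ z * Real.exp (-T) * Real.exp (-(2 * P2)) := by
          intro z hz
          have h1 : Real.exp (budget LB c1 c3 S) * Real.exp (-T) * Real.exp (-(2 * P2)) ≤
              z * Real.exp (-T) * Real.exp (-(2 * P2)) := by
            apply mul_le_mul_of_nonneg_right _ (Real.exp_pos _).le
            exact mul_le_mul_of_nonneg_right hz (Real.exp_pos _).le
          refine le_trans ?_ h1
          rw [← Real.exp_add, ← Real.exp_add]
          apply Real.exp_le_exp.mpr
          have hcard : ((S \ S1).card : ℝ) = S.card - S1.card := by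
            rw [Finset.card_sdiff_of_subset hS1, Nat.cast_sub (Finset.card_le_card hS1)]
          unfold budget
          rw [if_neg hSne.ne_empty, hcard]
          split_ifs with he
          · -- everything has been played
            nlinarith
          · -- a full chunk
            have hfull : S1.card = s := by
              rw [hS1c]
              apply min_eq_left
              by_contra hcon
              push Not at hcon
              apply he
              have : S1 = S := Finset.eq_of_subset_of_card_le hS1 (by rw [hS1c]; simp; omega)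
              rw [this, Finset.sdiff_self]
            have h5 : c3 / s * (S1.card : ℝ) = c3 := by
              rw [hfull]
              field_simp
            have h6 : (lam + 2 * pmin * 2 ^ k / ((q + 1 : ℕ) : ℝ)) * S1.card + c3 ≤
                c1 * S1.card := by
              calc _ = (lam + 2 * pmin * 2 ^ k / ((q + 1 : ℕ) : ℝ) + c3 / s) * S1.card := by
                    rw [add_mul _ (c3 / s), h5]
                _ ≤ _ := mul_le_mul_of_nonneg_right hc1 (Nat.cast_nonneg _)
            linarith
        have hX1LB : Real.exp LB ≤ (sols X1).card := by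
          have h1 := hloss _ hA
          have h2 : ((sols X).card : ℝ) * Real.exp (-T) * Real.exp (-(2 * P2)) ≤
              ((sols X).card : ℝ) * Real.exp (-T) := by
            have h0 : Real.exp (-(2 * P2)) ≤ 1 := Real.exp_le_one_iff.mpr (by linarith)
            have h3 : 0 ≤ ((sols X).card : ℝ) * Real.exp (-T) :=
              mul_nonneg hApos.le (Real.exp_pos _).le
            exact mul_le_of_le_one_right h3 h0
          exact (Real.exp_le_exp.mpr (LB_le_budget hc10 hc30 _)).trans
            (h1.trans (h2.trans hX1c))
        have hdis3 : Disjoint U2 R0 := Disjoint.mono_left hU2U hdis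
        refine (flush q P2 p1 hP20 h.P2_le hp1 U2 R0 X1 hdis3 ?_ ?_).trans ?_
        · intro c hc
          have h1 : (vm X1 c : ℝ) ≤ 2 * p1 * (sols X).card :=
            le_trans (by exact_mod_cast vm_mono hX1a c) (hvm c (hU2U hc))
          have h2 : ((sols X).card : ℝ) ≤ Real.exp T * (sols X1).card := by
            have := mul_le_mul_of_nonneg_left hX1c (Real.exp_pos T).le
            have h3 : Real.exp T * (((sols X).card : ℝ) * Real.exp (-T)) = (sols X).card := by
              rw [mul_comm ((sols X).card : ℝ), ← mul_assoc, ← Real.exp_add]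
              simp
            rwa [h3] at this
          calc (vm X1 c : ℝ) ≤ 2 * p1 * (sols X).card := h1
            _ ≤ 2 * p1 * (Real.exp T * (sols X1).card) :=
                mul_le_mul_of_nonneg_left h2 h2p1
            _ = 2 * p1 * Real.exp T * (sols X1).card := by ring
            _ ≤ P2 * (sols X1).card := mul_le_mul_of_nonneg_right hTP' (Nat.cast_nonneg _)
        · exact hcount X1 _ ((Finset.filter_subset _ _).trans (hU2U.trans hU1b)) hX1LB
            fun c hc => (Finset.mem_filter.mp hc).2
        · rintro U' X2 ⟨U3, hU3, rfl, hX2a, hX2b, hX2c, hX2d⟩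
          refine (ih (S \ S1) U3 X2 ?_ ?_ ?_ ?_ hX2d ?_).mono ?_
          · rw [Finset.card_sdiff_of_subset hS1]; omega
          · intro c hc
            have h1 := hU3 hc
            rw [hU2, Finset.mem_filter] at h1
            have h2 := Finset.mem_filter.mp (hU1 h1.1)
            exact Finset.mem_filter.mpr ⟨h2.1, Finset.mem_sdiff.mpr ⟨h2.2, h1.2⟩⟩
          · exact hU3.trans (hU2U.trans hU1b)
          · exact Disjoint.mono_left (hU3.trans hU2U) hdis
          · refine (hloss _ hA).trans ?_
            have h1 : Real.exp (-(2 * P2)) ≤ 1 - P2 := exp_neg_two_le hP20 h.P2_le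
            calc ((sols X).card : ℝ) * Real.exp (-T) * Real.exp (-(2 * P2)) ≤
                (sols X1).card * Real.exp (-(2 * P2)) :=
                  mul_le_mul_of_nonneg_right hX1c (Real.exp_pos _).le
              _ ≤ (sols X1).card * (1 - P2) := mul_le_mul_of_nonneg_left h1 (Nat.cast_nonneg _)
              _ = (1 - P2) * (sols X1).card := by ring
              _ ≤ _ := hX2c
          · rintro U' X' ⟨h1, h2, h3, h4⟩
            refine ⟨h1, hX1a.trans (hX2a.trans h2), ?_, h4⟩
            refine h3.trans (Finset.union_subset (hX2b.trans (Finset.union_subset ?_ ?_)) ?_)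
            · exact hX1b.trans (Finset.union_subset_union_right hFU)
            · exact hU2U.trans Finset.subset_union_right
            · exact (hU3.trans hU2U).trans Finset.subset_union_right

end Inner

end Pool.Agent.W_MP_fefad7_co.CWSharp
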