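import Pool.Agent.W_MP_fefad7_co.CWSharp.Danger

/-!
# The number of dangerous clauses is at most `q + 1`
-/

set_option autoImplicit false

namespace Pool.Agent.W_MP_fefad7_co.CWSharp

open Finset

lemma log_two_lt_one : Real.log 2 < 1 := by
  have := Real.log_two_lt_d9
  linarith

/-- From the hypothesis on the bias. -/
lemma pow_pred_le {n k q : ℕ} {χ : ℝ} (hn : 0 < n) (hk : 1 ≤ k)
    (hQ : (n : ℝ) ^ k / ((k.factorial : ℝ) * ((q + 1 : ℕ) : ℝ)) ≤ χ * n) :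
    (n : ℝ) ^ (k - 1) ≤ χ * (k.factorial * ((q + 1 : ℕ) : ℝ)) := by
  have hnR : (0 : ℝ) < n := by exact_mod_cast hn
  have hf : (0 : ℝ) < k.factorial := by exact_mod_cast Nat.factorial_pos k
  have hq : (0 : ℝ) < ((q + 1 : ℕ) : ℝ) := by positivity
  rw [div_le_iff₀ (by positivity)] at hQ
  have h1 : (n : ℝ) ^ k = n * (n : ℝ) ^ (k - 1) := by
    rw [← pow_succ', Nat.sub_add_cancel hk]
  rw [h1] at hQ
  have h2 : (n : ℝ) * (n : ℝ) ^ (k - 1) ≤ n * (χ * (k.factorial * ((q + 1 : ℕ) : ℝ))) := by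
    linarith
  exact le_of_mul_le_mul_left h2 hnR

lemma choose_le_of_bias {n k q m : ℕ} {χ : ℝ} (hn : 0 < n) (hk : 1 ≤ k) (hm : m ≤ n)
    (hQ : (n : ℝ) ^ k / ((k.factorial : ℝ) * ((q + 1 : ℕ) : ℝ)) ≤ χ * n) :
    ((m.choose k : ℕ) : ℝ) ≤ χ * m * ((q + 1 : ℕ) : ℝ) := by
  have hf : (0 : ℝ) < k.factorial := by exact_mod_cast Nat.factorial_pos k
  have h1 := pow_pred_le hn hk hQ
  have h2 : ((m.choose k : ℕ) : ℝ) ≤ (m : ℝ) ^ k / k.factorial := Nat.choose_le_pow_div k m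
  refine h2.trans ?_
  rw [div_le_iff₀ hf]
  have h3 : (m : ℝ) ^ k = m * (m : ℝ) ^ (k - 1) := by
    rw [← pow_succ', Nat.sub_add_cancel hk]
  rw [h3]
  have h4 : (m : ℝ) ^ (k - 1) ≤ (n : ℝ) ^ (k - 1) :=
    pow_le_pow_left₀ (Nat.cast_nonneg _) (by exact_mod_cast hm) _
  calc (m : ℝ) * (m : ℝ) ^ (k - 1) ≤ m * (χ * (k.factorial * ((q + 1 : ℕ) : ℝ))) :=
        mul_le_mul_of_nonneg_left (h4.trans h1) (Nat.cast_nonneg _)
    _ = _ := by ring

/-- The lower bound on the number of solutions. -/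
lemma budget_lower {n k q G m j : ℕ} {g χ ν c1 c3 : ℝ} (hg : 0 < g) (hgχ : g = Real.log 2 - χ)
    (hχ : 0 < χ) (hν0 : 0 < ν) (hν : ν ≤ g / 8) (hc1 : c1 = (1 + 3 * ν / 2) / ((q + 1 : ℕ) : ℝ))
    (hc31 : c3 ≤ 1) (hG : 16 / g ≤ G) (hn : 0 < n) (hk : 1 ≤ k)
    (hQ : (n : ℝ) ^ k / ((k.factorial : ℝ) * ((q + 1 : ℕ) : ℝ)) ≤ χ * n) (hm : m ≤ n)
    (hjm : j * G ≤ m) :
    ((n : ℝ) - m) * Real.log 2 + 5 * g / 8 * m - 2 ≤
      n * Real.log 2 - c1 * ((m.choose k : ℕ) : ℝ) - (c3 + Real.log 2) * ((j + 1 : ℕ) : ℝ) := by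
  have hL := log_two_lt_one
  have hL0 : 0 < Real.log 2 := Real.log_pos (by norm_num)
  have hq : (0 : ℝ) < ((q + 1 : ℕ) : ℝ) := by positivity
  have hm0 : (0 : ℝ) ≤ m := Nat.cast_nonneg _
  have h1 := choose_le_of_bias hn hk hm hQ
  have h2 : c1 * ((m.choose k : ℕ) : ℝ) ≤ (1 + 3 * ν / 2) * χ * m := by
    rw [hc1]
    calc (1 + 3 * ν / 2) / ((q + 1 : ℕ) : ℝ) * ((m.choose k : ℕ) : ℝ) ≤
          (1 + 3 * ν / 2) / ((q + 1 : ℕ) : ℝ) * (χ * m * ((q + 1 : ℕ) : ℝ)) :=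
          mul_le_mul_of_nonneg_left h1 (by positivity)
      _ = _ := by field_simp
  have h3 : (1 + 3 * ν / 2) * χ ≤ χ + 3 * g / 16 := by
    have : ν * χ ≤ ν * 1 := mul_le_mul_of_nonneg_left (by linarith) hν0.le
    nlinarith
  have h4 : (1 + 3 * ν / 2) * χ * m ≤ (χ + 3 * g / 16) * m := mul_le_mul_of_nonneg_right h3 hm0
  have h5 : (j : ℝ) * 16 ≤ g * m := by
    have h6 : (j : ℝ) * G ≤ m := by exact_mod_cast hjm
    have h7 : (j : ℝ) * (16 / g) ≤ m := le_trans (mul_le_mul_of_nonneg_left hG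
      (Nat.cast_nonneg _)) h6
    rw [mul_div_assoc', div_le_iff₀ hg] at h7
    linarith
  have h6 : (c3 + Real.log 2) * ((j + 1 : ℕ) : ℝ) ≤ 2 * ((j + 1 : ℕ) : ℝ) :=
    mul_le_mul_of_nonneg_right (by linarith) (Nat.cast_nonneg _)
  push_cast at h6 ⊢
  have h7 : (χ + 3 * g / 16) * m = m * Real.log 2 - 13 * g / 16 * m := by
    rw [hgχ]; ring
  have h8 : 0 ≤ g * m := by positivity
  nlinarith

theorem count_ok {n k q G : ℕ} {g χ ν β y p1 c1 c3 : ℝ} (hg : 0 < g)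
    (hgχ : g = Real.log 2 - χ) (hχ : 0 < χ) (hν0 : 0 < ν) (hν : ν ≤ g / 8)
    (hc1 : c1 = (1 + 3 * ν / 2) / ((q + 1 : ℕ) : ℝ)) (hc31 : c3 ≤ 1) (hG : 16 / g ≤ G)
    (hy : y = g / 8) (hβ1 : β ≤ 1 / 2) (hβ2 : β * Real.log (1 / y) ≤ g / 16)
    (hk : 1 ≤ k) (hn0 : 0 < n)
    (hQ : (n : ℝ) ^ k / ((k.factorial : ℝ) * ((q + 1 : ℕ) : ℝ)) ≤ χ * n)
    (hn : Real.log (1 / y) + ((k - 1 : ℕ) : ℝ) * Real.log 2 + 2 ≤ 3 * g / 16 * n)
    (hp1 : 0 < p1) (hcnt : 2 * (G : ℝ) * k * (1 - β) ^ (k - 1) ≤ p1 ^ 2)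
    (j : ℕ) (X D : Finset (Clause n))
    (hD : D ⊆ blk k n (min (j * G) n) (min ((j + 1) * G) n)) (hj : j * G < n)
    (hA : Real.exp (n * Real.log 2 - c1 * ((min ((j + 1) * G) n).choose k : ℕ) -
        (c3 + Real.log 2) * ((j + 1 : ℕ) : ℝ)) ≤ (sols X).card)
    (hdang : ∀ c ∈ D, p1 * (sols X).card < (vm X c : ℝ)) : D.card ≤ q + 1 := by
  have hL := log_two_lt_one
  have hL0 : 0 < Real.log 2 := Real.log_pos (by norm_num)
  have hq : (0 : ℝ) < ((q + 1 : ℕ) : ℝ) := by positivity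
  have hnR : (0 : ℝ) < n := by exact_mod_cast hn0
  have hg1 : g < 1 := by linarith
  have hy0 : 0 < y := by rw [hy]; positivity
  have hy1 : y ≤ 1 := by rw [hy]; linarith
  have hly : 0 ≤ Real.log (1 / y) := Real.log_nonneg (by rw [le_div_iff₀ hy0]; linarith)
  have hgm : (j + 1) * G = j * G + G := by ring
  set m : ℕ := min ((j + 1) * G) n with hm
  have hmn : m ≤ n := min_le_right _ _
  have hjm : j * G ≤ m := le_min (by omega) hj.le
  have hLB := budget_lower hg hgχ hχ hν0 hν hc1 hc31 hG hn0 hk hQ hmn hjm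
  have hA' : Real.exp (((n : ℝ) - m) * Real.log 2 + 5 * g / 8 * m - 2) ≤ (sols X).card :=
    (Real.exp_le_exp.mpr hLB).trans hA
  set a0 : ℕ := ⌊(1 - β) * n⌋₊ with ha0
  have ha0le : (a0 : ℝ) ≤ (1 - β) * n := Nat.floor_le (by
    apply mul_nonneg (by linarith) hnR.le)
  have ha0lt : (1 - β) * n < a0 + 1 := Nat.lt_floor_add_one _
  have hf : (0 : ℝ) < ((k - 1).factorial : ℝ) := by exact_mod_cast Nat.factorial_pos _
  set N : ℝ := (n : ℝ) ^ (k - 1) / ((k - 1).factorial : ℝ) with hN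
  have hN0 : 0 < N := by positivity
  have h1β : (1 / 2 : ℝ) ≤ 1 - β := by linarith
  set C0 : ℝ := (1 - β) ^ (k - 1) * N with hC0
  have hA0 : 0 < (sols X).card := by
    have := lt_of_lt_of_le (Real.exp_pos _) hA
    exact_mod_cast this
  have hC0' : ((a0.choose (k - 1) : ℕ) : ℝ) ≤ C0 := by
    refine (Nat.choose_le_pow_div (k - 1) a0).trans ?_
    rw [hC0, hN, mul_div_assoc', ← mul_pow]
    apply div_le_div_of_nonneg_right _ hf.le
    exact pow_le_pow_left₀ (Nat.cast_nonneg _) ha0le _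
  have hbig : a0 < m → (1 + y) ^ m * 2 ^ (n - m) * ((n.choose (k - 1) : ℕ) : ℝ) ≤
      (sols X).card * (y ^ (m - a0) * C0) := by
    intro ham
    have hamR : (a0 : ℝ) + 1 ≤ m := by exact_mod_cast ham
    have hm2 : (n : ℝ) ≤ 2 * m := by nlinarith
    have e1 : (1 + y) ^ m ≤ Real.exp (m * y) := by
      rw [Real.exp_nat_mul]
      apply pow_le_pow_left₀ (by linarith)
      have := Real.add_one_le_exp y
      linarith
    have e2 : (2 : ℝ) ^ (n - m) = Real.exp (((n : ℝ) - m) * Real.log 2) := by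
      rw [← Nat.cast_sub hmn, Real.exp_nat_mul, Real.exp_log (by norm_num)]
    have e3 : ((n.choose (k - 1) : ℕ) : ℝ) ≤ N := Nat.choose_le_pow_div (k - 1) n
    have e4 : y ^ (m - a0) = Real.exp (-(((m : ℝ) - a0) * Real.log (1 / y))) := by
      rw [← Nat.cast_sub ham.le, one_div, Real.log_inv, ← mul_neg, neg_neg, Real.exp_nat_mul,
        Real.exp_log hy0]
    have e5 : Real.exp (-(((k - 1 : ℕ) : ℝ) * Real.log 2)) ≤ (1 - β) ^ (k - 1) := by
      rw [← mul_neg, Real.exp_nat_mul, Real.exp_neg, Real.exp_log (by norm_num)]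
      apply pow_le_pow_left₀ (by norm_num)
      linarith
    have hma : ((m : ℝ) - a0) * Real.log (1 / y) ≤ g / 8 * m + Real.log (1 / y) := by
      have h1 : (m : ℝ) - a0 ≤ β * n + 1 := by
        have : (m : ℝ) ≤ n := by exact_mod_cast hmn
        linarith
      calc ((m : ℝ) - a0) * Real.log (1 / y) ≤ (β * n + 1) * Real.log (1 / y) :=
            mul_le_mul_of_nonneg_right h1 hly
        _ = (β * Real.log (1 / y)) * n + Real.log (1 / y) := by ring
        _ ≤ g / 16 * n + Real.log (1 / y) := by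
            have := mul_le_mul_of_nonneg_right hβ2 hnR.le
            linarith
        _ ≤ _ := by nlinarith
    calc (1 + y) ^ m * 2 ^ (n - m) * ((n.choose (k - 1) : ℕ) : ℝ)
        ≤ Real.exp (m * y) * Real.exp (((n : ℝ) - m) * Real.log 2) * N := by
          rw [e2]
          apply mul_le_mul _ e3 (Nat.cast_nonneg _) (by positivity)
          exact mul_le_mul_of_nonneg_right e1 (Real.exp_pos _).le
      _ ≤ Real.exp (((n : ℝ) - m) * Real.log 2 + 5 * g / 8 * m - 2) *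
          (Real.exp (-(((m : ℝ) - a0) * Real.log (1 / y))) *
            (Real.exp (-(((k - 1 : ℕ) : ℝ) * Real.log 2)) * N)) := by
          rw [← Real.exp_add, ← mul_assoc, ← mul_assoc, ← Real.exp_add, ← Real.exp_add]
          apply mul_le_mul_of_nonneg_right _ hN0.le
          apply Real.exp_le_exp.mpr
          have hmy : (m : ℝ) * y = g / 8 * m := by rw [hy]; ring
          have h3 : 3 * g / 16 * n ≤ 3 * g / 8 * m := by nlinarith
          rw [hmy]
          linarith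
      _ ≤ (sols X).card * (y ^ (m - a0) * C0) := by
          rw [e4, hC0]
          apply mul_le_mul hA' _ (by positivity) (Nat.cast_nonneg _)
          apply mul_le_mul_of_nonneg_left _ (Real.exp_pos _).le
          exact mul_le_mul_of_nonneg_right e5 hN0.le
  have hGG : m - min (j * G) n ≤ G := by
    rw [min_eq_left hj.le]
    have : m ≤ (j + 1) * G := min_le_left _ _
    omega
  have hmain := danger_count k (min (j * G) n) m G a0 hmn hGG X D hD y C0 p1 hy0 hy1 hA0 hp1.le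
    hC0' hbig hdang
  -- conclusion
  have hpp := pow_pred_le hn0 hk hQ
  have hkf : (k.factorial : ℝ) = k * ((k - 1).factorial : ℝ) := by
    have : k.factorial = k * (k - 1).factorial := (Nat.mul_factorial_pred (by omega)).symm
    rw [this]; push_cast; ring
  have hNle : N ≤ χ * k * ((q + 1 : ℕ) : ℝ) := by
    rw [hN, div_le_iff₀ hf]
    refine hpp.trans (le_of_eq ?_)
    rw [hkf]; ring
  have h9 : (D.card : ℝ) * p1 ^ 2 ≤ ((q + 1 : ℕ) : ℝ) * p1 ^ 2 := by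
    refine hmain.trans ?_
    have hb0 : 0 ≤ (1 - β) ^ (k - 1) := by apply pow_nonneg; linarith
    calc (G : ℝ) * (2 * C0) ≤ G * (2 * ((1 - β) ^ (k - 1) * (χ * k * ((q + 1 : ℕ) : ℝ)))) := by
          apply mul_le_mul_of_nonneg_left _ (Nat.cast_nonneg _)
          apply mul_le_mul_of_nonneg_left _ (by norm_num)
          exact mul_le_mul_of_nonneg_left hNle hb0
      _ = χ * (2 * (G : ℝ) * k * (1 - β) ^ (k - 1)) * ((q + 1 : ℕ) : ℝ) := by ring
      _ ≤ 1 * p1 ^ 2 * ((q + 1 : ℕ) : ℝ) := by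
          apply mul_le_mul_of_nonneg_right _ hq.le
          exact mul_le_mul (by linarith) hcnt (by positivity) (by norm_num)
      _ = _ := by ring
  have h10 : (D.card : ℝ) ≤ ((q + 1 : ℕ) : ℝ) := le_of_mul_le_mul_right h9 (by positivity)
  exact_mod_cast h10

end Pool.Agent.W_MP_fefad7_co.CWSharp
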