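import Mathlib

/-!
# Choice of a sparse batch and the level step
-/

set_option autoImplicit false

namespace Pool.Agent.W_MP_fefad7_co.CWSharp

open Finset

section Sparse

variable {γ : Type*} [DecidableEq γ]

lemma sum_insert_sym (f : γ → γ → ℝ) (hsym : ∀ x y, f x y = f y x) (h0 : ∀ x, f x x = 0)
    (R : Finset γ) (c : γ) (hc : c ∉ R) :
    ∑ x ∈ insert c R, ∑ y ∈ insert c R, f x y =
      ∑ x ∈ R, ∑ y ∈ R, f x y + 2 * ∑ y ∈ R, f c y := by
  rw [Finset.sum_insert hc, Finset.sum_insert hc, h0]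
  have h1 : ∀ x ∈ R, ∑ y ∈ insert c R, f x y = f c x + ∑ y ∈ R, f x y := by
    intro x _
    rw [Finset.sum_insert hc, hsym x c]
  rw [Finset.sum_congr rfl h1, Finset.sum_add_distrib]
  ring

/-- A set of `b` elements of `L` with small inner degrees. -/
lemma exists_sparse (f : γ → γ → ℝ) (hsym : ∀ x y, f x y = f y x) (h0 : ∀ x, f x x = 0)
    (hnn : ∀ x y, 0 ≤ f x y) (L : Finset γ) (b : ℕ) (hb : b < L.card) (E : ℝ)
    (hE : ∀ x ∈ L, ∑ y ∈ L, f x y ≤ E) :
    ∃ B ⊆ L, B.card = b ∧ ∀ c ∈ B, ∑ y ∈ B, f c y ≤ b * E / (L.card - b) := by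
  classical
  obtain ⟨B, hB, hmin⟩ := Finset.exists_min_image (L.powersetCard b)
    (fun B => ∑ x ∈ B, ∑ y ∈ B, f x y) (Finset.powersetCard_nonempty.mpr hb.le)
  rw [Finset.mem_powersetCard] at hB
  refine ⟨B, hB.1, hB.2, ?_⟩
  intro c hc
  have hpos : (0 : ℝ) < (L.card : ℝ) - b := by
    have : (b : ℝ) < L.card := by exact_mod_cast hb
    linarith
  rw [le_div_iff₀ hpos]
  have hdeg : ∀ c' ∈ L \ B, ∑ y ∈ B, f c y ≤ ∑ y ∈ B, f c' y := by
    intro c' hc'
    rw [Finset.mem_sdiff] at hc'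
    have hne : c' ∉ B.erase c := fun h => hc'.2 (Finset.mem_of_mem_erase h)
    have h1 := hmin (insert c' (B.erase c)) (by
      rw [Finset.mem_powersetCard]
      refine ⟨?_, ?_⟩
      · intro x hx
        rcases Finset.mem_insert.mp hx with rfl | hx
        · exact hc'.1
        · exact hB.1 (Finset.mem_of_mem_erase hx)
      · rw [Finset.card_insert_of_notMem hne, Finset.card_erase_of_mem hc, hB.2]
        have : 0 < b := by
          rw [← hB.2]; exact Finset.card_pos.mpr ⟨c, hc⟩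
        omega)
    have h2 : ∑ x ∈ B, ∑ y ∈ B, f x y =
        ∑ x ∈ B.erase c, ∑ y ∈ B.erase c, f x y + 2 * ∑ y ∈ B.erase c, f c y := by
      conv_lhs => rw [← Finset.insert_erase hc]
      exact sum_insert_sym f hsym h0 _ _ (Finset.notMem_erase _ _)
    have h3 := sum_insert_sym f hsym h0 (B.erase c) c' hne
    rw [h2, h3] at h1
    have h4 : ∑ y ∈ B, f c y = ∑ y ∈ B.erase c, f c y := by
      conv_lhs => rw [← Finset.insert_erase hc]
      rw [Finset.sum_insert (Finset.notMem_erase _ _), h0, zero_add]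
    have h5 : ∑ y ∈ B.erase c, f c' y ≤ ∑ y ∈ B, f c' y :=
      Finset.sum_le_sum_of_subset_of_nonneg (Finset.erase_subset _ _) fun _ _ _ => hnn _ _
    rw [h4]
    linarith
  have h6 : ((L \ B).card : ℝ) * ∑ y ∈ B, f c y ≤ ∑ c' ∈ L \ B, ∑ y ∈ B, f c' y := by
    rw [← nsmul_eq_mul]
    exact Finset.card_nsmul_le_sum _ _ _ hdeg
  have h7 : ∑ c' ∈ L \ B, ∑ y ∈ B, f c' y ≤ b * E := by
    rw [Finset.sum_comm]
    calc ∑ y ∈ B, ∑ x ∈ L \ B, f x y ≤ ∑ y ∈ B, E := by
          apply Finset.sum_le_sum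
          intro y hy
          refine le_trans ?_ (hE y (hB.1 hy))
          calc ∑ x ∈ L \ B, f x y = ∑ x ∈ L \ B, f y x :=
                Finset.sum_congr rfl fun x _ => hsym _ _
            _ ≤ _ := Finset.sum_le_sum_of_subset_of_nonneg Finset.sdiff_subset
                fun _ _ _ => hnn _ _
      _ = b * E := by rw [Finset.sum_const, nsmul_eq_mul, hB.2]
  have h8 : ((L \ B).card : ℝ) = (L.card : ℝ) - b := by
    rw [Finset.card_sdiff_of_subset hB.1, Nat.cast_sub (Finset.card_le_card hB.1), hB.2]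
  rw [h8] at h6
  linarith

end Sparse

section Step

variable {Ω γ : Type*} [DecidableEq γ]

/-- The mass of the points violating `c`. -/
noncomputable def mass (S : Finset Ω) (V : Ω → Finset γ) (w : Ω → ℝ) (c : γ) : ℝ :=
  ∑ σ ∈ S.filter fun σ => c ∈ V σ, w σ

/-- The mass of the points violating `c` and `c'`. -/
noncomputable def mass2 (S : Finset Ω) (V : Ω → Finset γ) (w : Ω → ℝ) (c c' : γ) : ℝ :=
  ∑ σ ∈ S.filter fun σ => c ∈ V σ ∧ c' ∈ V σ, w σ

lemma sum_mul_card_inter (S : Finset Ω) (V : Ω → Finset γ) (w : Ω → ℝ) (B : Finset γ) :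
    ∑ σ ∈ S, w σ * ((B ∩ V σ).card : ℝ) = ∑ c ∈ B, mass S V w c := by
  unfold mass
  have h1 : ∀ σ ∈ S, w σ * ((B ∩ V σ).card : ℝ) = ∑ c ∈ B, if c ∈ V σ then w σ else 0 := by
    intro σ _
    rw [← Finset.sum_filter, Finset.sum_const, nsmul_eq_mul, mul_comm, Finset.filter_mem_eq_inter]
  rw [Finset.sum_congr rfl h1, Finset.sum_comm]
  refine Finset.sum_congr rfl fun c _ => ?_
  rw [Finset.sum_filter]

lemma sum_mul_card_inter2 (S : Finset Ω) (V : Ω → Finset γ) (w : Ω → ℝ) (B : Finset γ) (c : γ) :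
    ∑ σ ∈ S.filter (fun σ => c ∈ V σ), w σ * ((B ∩ V σ).card : ℝ) =
      ∑ c' ∈ B, mass2 S V w c c' := by
  rw [sum_mul_card_inter]
  refine Finset.sum_congr rfl fun c' _ => ?_
  unfold mass mass2
  rw [Finset.filter_filter]

lemma mass2_self (S : Finset Ω) (V : Ω → Finset γ) (w : Ω → ℝ) (c : γ) :
    mass2 S V w c c = mass S V w c := by
  unfold mass mass2
  simp

lemma mass2_comm (S : Finset Ω) (V : Ω → Finset γ) (w : Ω → ℝ) (c c' : γ) :
    mass2 S V w c c' = mass2 S V w c' c := by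
  unfold mass2
  congr 1
  ext σ
  simp [and_comm]

lemma mass_nonneg (S : Finset Ω) (V : Ω → Finset γ) (w : Ω → ℝ) (hw : ∀ σ, 0 ≤ w σ) (c : γ) :
    0 ≤ mass S V w c := Finset.sum_nonneg fun _ _ => hw _

lemma mass2_nonneg (S : Finset Ω) (V : Ω → Finset γ) (w : Ω → ℝ) (hw : ∀ σ, 0 ≤ w σ) (c c' : γ) :
    0 ≤ mass2 S V w c c' := Finset.sum_nonneg fun _ _ => hw _

/-- The new potential is at least the old one plus the drift. -/
lemma level_step (S : Finset Ω) (V : Ω → Finset γ) (w : Ω → ℝ) (hw : ∀ σ, 0 ≤ w σ)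
    (B : Finset γ) (lam lo hi D : ℝ) (hlam : 0 ≤ lam) (c : γ) (hc : c ∈ B)
    (hlo : ∀ x ∈ B, lo ≤ mass S V w x) (hhi : mass S V w c ≤ hi)
    (hD : ∑ c' ∈ B, (if c = c' then 0 else mass2 S V w c c') ≤ D) :
    ∑ σ ∈ S, w σ + (lam * B.card * lo - hi - lam * (hi + D)) ≤
      ∑ σ ∈ S.filter (fun σ => c ∉ V σ), w σ * Real.exp (lam * (B ∩ V σ).card) := by
  have h1 : ∑ σ ∈ S.filter (fun σ => c ∉ V σ), w σ * (1 + lam * (B ∩ V σ).card) ≤
      ∑ σ ∈ S.filter (fun σ => c ∉ V σ), w σ * Real.exp (lam * (B ∩ V σ).card) := by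
    apply Finset.sum_le_sum
    intro σ _
    apply mul_le_mul_of_nonneg_left _ (hw σ)
    have := Real.add_one_le_exp (lam * (B ∩ V σ).card)
    linarith
  refine le_trans ?_ h1
  have h2 : ∑ σ ∈ S.filter (fun σ => c ∉ V σ), w σ * (1 + lam * (B ∩ V σ).card) =
      ∑ σ ∈ S, w σ * (1 + lam * (B ∩ V σ).card) -
        ∑ σ ∈ S.filter (fun σ => c ∈ V σ), w σ * (1 + lam * (B ∩ V σ).card) := by
    rw [eq_sub_iff_add_eq, add_comm]
    exact Finset.sum_filter_add_sum_filter_not _ _ _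
  have h3 : ∀ T : Finset Ω, ∑ σ ∈ T, w σ * (1 + lam * (B ∩ V σ).card) =
      ∑ σ ∈ T, w σ + lam * ∑ σ ∈ T, w σ * ((B ∩ V σ).card : ℝ) := by
    intro T
    rw [Finset.mul_sum, ← Finset.sum_add_distrib]
    refine Finset.sum_congr rfl fun σ _ => ?_
    ring
  rw [h2, h3, h3, sum_mul_card_inter, sum_mul_card_inter2]
  have h4 : (B.card : ℝ) * lo ≤ ∑ x ∈ B, mass S V w x := by
    rw [← nsmul_eq_mul]
    exact Finset.card_nsmul_le_sum _ _ _ hlo
  have h5 : ∑ c' ∈ B, mass2 S V w c c' =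
      mass S V w c + ∑ c' ∈ B, (if c = c' then 0 else mass2 S V w c c') := by
    have h6 : ∀ c' ∈ B, mass2 S V w c c' = (if c = c' then mass S V w c else 0) +
        (if c = c' then 0 else mass2 S V w c c') := by
      intro c' _
      split_ifs with h
      · subst h; rw [mass2_self]; ring
      · ring
    rw [Finset.sum_congr rfl h6, Finset.sum_add_distrib, Finset.sum_ite_eq, if_pos hc]
  rw [h5]
  have h7 : ∑ σ ∈ S.filter (fun σ => c ∈ V σ), w σ = mass S V w c := rfl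
  rw [h7]
  nlinarith [mul_le_mul_of_nonneg_left h4 hlam, mul_le_mul_of_nonneg_left hhi hlam,
    mul_le_mul_of_nonneg_left hD hlam]

/-- Trivial bound. -/
lemma trivial_step (S : Finset Ω) (V : Ω → Finset γ) (w : Ω → ℝ) (hw : ∀ σ, 0 ≤ w σ)
    (B : Finset γ) (lam : ℝ) (hlam : 0 ≤ lam) (c : γ) :
    ∑ σ ∈ S, w σ - mass S V w c ≤
      ∑ σ ∈ S.filter (fun σ => c ∉ V σ), w σ * Real.exp (lam * (B ∩ V σ).card) := by
  have h1 : ∑ σ ∈ S.filter (fun σ => c ∉ V σ), w σ ≤
      ∑ σ ∈ S.filter (fun σ => c ∉ V σ), w σ * Real.exp (lam * (B ∩ V σ).card) := by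
    apply Finset.sum_le_sum
    intro σ _
    have : 1 ≤ Real.exp (lam * (B ∩ V σ).card) := Real.one_le_exp (by positivity)
    nlinarith [hw σ]
  refine le_trans ?_ h1
  have h2 := Finset.sum_filter_add_sum_filter_not S (fun σ => c ∈ V σ) w
  unfold mass
  linarith

/-- Row sums of the pair masses. -/
lemma row_sum_le (S : Finset Ω) (V : Ω → Finset γ) (w : Ω → ℝ) (hw : ∀ σ, 0 ≤ w σ)
    (L : Finset γ) (s : ℝ) (hs : ∀ σ ∈ S, ((L ∩ V σ).card : ℝ) ≤ s) (c : γ) :
    ∑ c' ∈ L, (if c = c' then 0 else mass2 S V w c c') ≤ s * mass S V w c := by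
  calc ∑ c' ∈ L, (if c = c' then 0 else mass2 S V w c c') ≤ ∑ c' ∈ L, mass2 S V w c c' := by
        apply Finset.sum_le_sum
        intro c' _
        split_ifs
        · exact mass2_nonneg S V w hw _ _
        · exact le_refl _
    _ = ∑ σ ∈ S.filter (fun σ => c ∈ V σ), w σ * ((L ∩ V σ).card : ℝ) :=
        (sum_mul_card_inter2 S V w L c).symm
    _ ≤ ∑ σ ∈ S.filter (fun σ => c ∈ V σ), w σ * s := by
        apply Finset.sum_le_sum
        intro σ hσ
        exact mul_le_mul_of_nonneg_left (hs σ (Finset.mem_filter.mp hσ).1) (hw σ)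
    _ = s * mass S V w c := by
        unfold mass
        rw [Finset.mul_sum]
        exact Finset.sum_congr rfl fun _ _ => by ring

/-- **The level step.**  If many elements of `F` have almost the same mass, then a batch can be
offered for which the potential does not decrease whatever the answer. -/
lemma exists_level_batch (S : Finset Ω) (V : Ω → Finset γ) (w : Ω → ℝ) (hw : ∀ σ, 0 ≤ w σ)
    (L : Finset γ) (b : ℕ) (lam lo hi s : ℝ) (hlam : 0 ≤ lam) (hb : b < L.card)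
    (hs0 : 0 ≤ s)
    (hs : ∀ σ ∈ S, ((L ∩ V σ).card : ℝ) ≤ s)
    (hL : ∀ x ∈ L, lo ≤ mass S V w x ∧ mass S V w x ≤ hi)
    (hkey : hi + lam * (hi + b * (s * hi) / (L.card - b)) ≤ lam * b * lo) :
    ∃ B ⊆ L, B.card = b ∧ ∀ c ∈ B, ∑ σ ∈ S, w σ ≤
      ∑ σ ∈ S.filter (fun σ => c ∉ V σ), w σ * Real.exp (lam * (B ∩ V σ).card) := by
  obtain ⟨B, hBL, hBc, hB⟩ := exists_sparse (fun c c' => if c = c' then 0 else mass2 S V w c c')
    (fun x y => by
      by_cases h : x = y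
      · simp [h]
      · simp only [h, if_false, Ne.symm h]
        exact mass2_comm S V w x y)
    (fun x => by simp) (fun x y => by
      split_ifs
      · exact le_refl _
      · exact mass2_nonneg S V w hw _ _) L b hb (s * hi) (fun x hx =>
        (row_sum_le S V w hw L s hs x).trans (mul_le_mul_of_nonneg_left (hL x hx).2 hs0))
  refine ⟨B, hBL, hBc, fun c hc => ?_⟩
  have h1 := level_step S V w hw B lam lo hi (b * (s * hi) / (L.card - b)) hlam c hc
    (fun x hx => (hL x (hBL hx)).1) (hL c (hBL hc)).2 (hB c hc)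
  rw [hBc] at h1
  linarith

end Step

end Pool.Agent.W_MP_fefad7_co.CWSharp
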