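import Pool.Agent.W_MP_fefad7_co.CWSharp.Block

/-!
# The whole game, block after block
-/

set_option autoImplicit false

namespace Pool.Agent.W_MP_fefad7_co.CWSharp

open Finset

variable {n : ℕ}

/-- Flipping a variable. -/
def flip (v : Fin n) (σ : Fin n → Bool) : Fin n → Bool := Function.update σ v (!(σ v))

lemma flip_flip (v : Fin n) (σ : Fin n → Bool) : flip v (flip v σ) = σ := by
  unfold flip
  ext i
  by_cases h : i = v
  · subst h; simp
  · simp [h]

/-- A clause containing a fresh variable is violated by at most half of the solutions. -/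
lemma vm_le_half (X : Finset (Clause n)) (c : Clause n) (l0 : Literal n) (hl0 : l0 ∈ c)
    (hfresh : ∀ d ∈ X, ∀ l ∈ d, l.1 ≠ l0.1) : (vm X c : ℝ) ≤ 1 / 2 * (sols X).card := by
  have hmem : ∀ σ ∈ sols X, flip l0.1 σ ∈ sols X := by
    intro σ hσ
    rw [mem_sols] at hσ ⊢
    intro d hd
    have h1 := hσ d hd
    rw [notMem_viol] at h1 ⊢
    obtain ⟨l, hl, h2⟩ := h1
    refine ⟨l, hl, ?_⟩
    unfold flip
    rw [Function.update_of_ne (hfresh d hd l hl)]
    exact h2
  have h1 : ((sols X).filter fun σ => c ∈ viol σ).card ≤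
      ((sols X).filter fun σ => c ∉ viol σ).card := by
    apply Finset.card_le_card_of_injOn (flip l0.1)
    · intro σ hσ
      rw [Finset.mem_coe, Finset.mem_filter] at hσ ⊢
      refine ⟨hmem σ hσ.1, ?_⟩
      rw [notMem_viol]
      refine ⟨l0, hl0, ?_⟩
      have h2 := mem_viol.mp hσ.2 l0 hl0
      unfold flip
      rw [Function.update_self]
      cases h3 : σ l0.1 <;> cases h4 : l0.2 <;> simp_all
    · intro σ _ τ _ h
      have := congrArg (flip l0.1) h
      rwa [flip_flip, flip_flip] at this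
  have h2 := Finset.card_filter_add_card_filter_not (s := sols X) (fun σ => c ∈ viol σ)
  have h3 : 2 * vm X c ≤ (sols X).card := by
    unfold vm
    omega
  have h4 : 2 * (vm X c : ℝ) ≤ (sols X).card := by exact_mod_cast h3
  linarith

/-- The `k`-sets of variables below `i1` not all below `i0`. -/
def newSets (n k i0 i1 : ℕ) : Finset (Finset (Fin n)) :=
  ((Finset.univ.filter fun i : Fin n => i.val < i1).powersetCard k) \
    ((Finset.univ.filter fun i : Fin n => i.val < i0).powersetCard k)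

lemma card_newSets (k i0 i1 : ℕ) (h01 : i0 ≤ i1) (h1 : i1 ≤ n) :
    ((newSets n k i0 i1).card : ℝ) = (i1.choose k : ℕ) - (i0.choose k : ℕ) := by
  unfold newSets
  rw [Finset.card_sdiff_of_subset, Finset.card_powersetCard, Finset.card_powersetCard,
    card_below h1, card_below (h01.trans h1), Nat.cast_sub (Nat.choose_le_choose _ h01)]
  apply Finset.powersetCard_mono
  intro i hi
  rw [Finset.mem_filter] at hi ⊢
  exact ⟨hi.1, lt_of_lt_of_le hi.2 h01⟩

lemma blk_subset_cl (k i0 i1 : ℕ) : blk k n i0 i1 ⊆ cl k (newSets n k i0 i1) := by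
  intro c hc
  unfold blk at hc
  rw [Finset.mem_filter] at hc
  obtain ⟨hb, hlt, l0, hl0, hge⟩ := hc
  unfold cl newSets
  rw [Finset.mem_filter, Finset.mem_sdiff, Finset.mem_powersetCard, Finset.mem_powersetCard]
  have hcard : (c.image Prod.fst).card = k := by
    have h1 := mem_board.mp hb
    rw [Finset.card_image_of_injOn, h1.1]
    intro l hl l' hl' h
    exact h1.2 l hl l' hl' h
  refine ⟨hb, ⟨?_, hcard⟩, ?_⟩
  · intro i hi
    obtain ⟨l, hl, rfl⟩ := Finset.mem_image.mp hi
    exact Finset.mem_filter.mpr ⟨Finset.mem_univ _, hlt l hl⟩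
  · rintro ⟨h1, _⟩
    have := (Finset.mem_filter.mp (h1 (Finset.mem_image_of_mem _ hl0))).2
    omega

/-- The clauses not yet played when the variables below `i0` have been treated. -/
def later (k n i0 : ℕ) : Finset (Clause n) :=
  (board k n).filter fun c => ∃ l ∈ c, i0 ≤ l.1.val

lemma later_eq (k i0 i1 : ℕ) (h01 : i0 ≤ i1) : later k n i0 = blk k n i0 i1 ∪ later k n i1 := by
  ext c
  unfold later blk
  rw [Finset.mem_union, Finset.mem_filter, Finset.mem_filter, Finset.mem_filter]
  constructor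
  · rintro ⟨hb, l, hl, h⟩
    by_cases hlt : ∀ l ∈ c, l.1.val < i1
    · exact Or.inl ⟨hb, hlt, l, hl, h⟩
    · push Not at hlt
      exact Or.inr ⟨hb, hlt⟩
  · rintro (⟨hb, _, h⟩ | ⟨hb, l, hl, h⟩)
    · exact ⟨hb, h⟩
    · exact ⟨hb, l, hl, h01.trans h⟩

lemma disjoint_blk_later (k i0 i1 : ℕ) : Disjoint (blk k n i0 i1) (later k n i1) := by
  rw [Finset.disjoint_left]
  intro c hc hc'
  unfold blk at hc
  unfold later at hc'
  rw [Finset.mem_filter] at hc hc'
  obtain ⟨_, l, hl, h⟩ := hc'
  have := hc.2.1 l hl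
  omega

section

variable {q k : ℕ} {lam δ P2 pmin : ℝ} {s K J R : ℕ}

/-- **One block.** -/
theorem block (h : SB q lam δ P2 pmin s K J R) (hs1 : 1 ≤ s) (p1 c1 c3 LB : ℝ) (hp1 : 0 ≤ p1)
    (hc3 : c3 = 2 * P2 * R + 2 * P2)
    (hc1 : lam + 2 * pmin * 2 ^ k / ((q + 1 : ℕ) : ℝ) + c3 / s ≤ c1)
    (hTP : 2 * p1 * Real.exp (c1 * s + c3) ≤ P2)
    (i0 i1 : ℕ) (h01 : i0 ≤ i1) (hi1 : i1 ≤ n)
    (hcount : ∀ X D : Finset (Clause n), D ⊆ blk k n i0 i1 → Real.exp LB ≤ (sols X).card →
      (∀ c ∈ D, p1 * (sols X).card < (vm X c : ℝ)) → D.card ≤ q + 1)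
    (X : Finset (Clause n)) (hX : ∀ d ∈ X, ∀ l ∈ d, l.1.val < i0)
    (hA : Real.exp (LB + c1 * ((i1.choose k : ℕ) - (i0.choose k : ℕ)) + (c3 + Real.log 2)) ≤
      (sols X).card) :
    Forces q (fun U' X' => U' = later k n i1 ∧ (∀ d ∈ X', ∀ l ∈ d, l.1.val < i1) ∧
      Real.exp LB ≤ (sols X').card) (later k n i0) X := by
  classical
  have hlam := h.lam_pos
  have hP20 := h.P2_nonneg
  have hpm := h.pmin_pos.le
  have hQ : (0 : ℝ) < ((q + 1 : ℕ) : ℝ) := by positivity
  have hc30 : 0 ≤ c3 := by rw [hc3]; positivity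
  have hs0 : (0 : ℝ) < s := by exact_mod_cast hs1
  have hc10 : 0 ≤ c1 := by
    refine le_trans ?_ hc1
    have : 0 ≤ 2 * pmin * 2 ^ k / ((q + 1 : ℕ) : ℝ) := by positivity
    positivity
  have hlog2 : 0 < Real.log 2 := Real.log_pos (by norm_num)
  have hcard := card_newSets (n := n) k i0 i1 h01 hi1
  have hdiff : (0 : ℝ) ≤ (i1.choose k : ℕ) - (i0.choose k : ℕ) := by
    rw [← hcard]; exact Nat.cast_nonneg _
  rw [later_eq k i0 i1 h01]
  refine (flush q (1 / 2) p1 (by norm_num) le_rfl hp1 (blk k n i0 i1) (later k n i1) X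
    (disjoint_blk_later k i0 i1) ?_ ?_).trans ?_
  · intro c hc
    unfold blk at hc
    rw [Finset.mem_filter] at hc
    obtain ⟨_, _, l0, hl0, hge⟩ := hc
    apply vm_le_half X c l0 hl0
    intro d hd l hl heq
    have := hX d hd l hl
    rw [heq] at this
    omega
  · refine hcount X _ (Finset.filter_subset _ _) ?_ fun c hc => (Finset.mem_filter.mp hc).2
    refine le_trans (Real.exp_le_exp.mpr ?_) hA
    have := mul_nonneg hc10 hdiff
    linarith
  · rintro U' X1 ⟨U1, hU1, rfl, hX1a, hX1b, hX1c, hX1d⟩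
    refine (inner h hs1 p1 c1 c3 LB hp1 hc3 hc1 hTP i0 i1 (later k n i1) hcount
      (newSets n k i0 i1).card (newSets n k i0 i1) U1 X1 le_rfl (hU1.trans (blk_subset_cl k i0 i1))
      hU1 (Disjoint.mono_left hU1 (disjoint_blk_later k i0 i1)) hX1d ?_).mono ?_
    · have h1 : Real.exp (budget LB c1 c3 (newSets n k i0 i1)) ≤
          (1 - 1 / 2) * Real.exp (LB + c1 * ((i1.choose k : ℕ) - (i0.choose k : ℕ)) +
            (c3 + Real.log 2)) := by
        have h2 : (1 - 1 / 2 : ℝ) = Real.exp (-Real.log 2) := by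
          rw [Real.exp_neg, Real.exp_log (by norm_num)]
          norm_num
        rw [h2, ← Real.exp_add]
        apply Real.exp_le_exp.mpr
        unfold budget
        rw [hcard]
        split_ifs <;> linarith
      refine h1.trans (le_trans ?_ hX1c)
      exact mul_le_mul_of_nonneg_left hA (by norm_num)
    · rintro U' X' ⟨h1, h2, h3, h4⟩
      refine ⟨h1, ?_, h4⟩
      intro d hd l hl
      have h5 := h3 hd
      rw [Finset.mem_union] at h5
      have hb : ∀ e ∈ blk k n i0 i1, ∀ l ∈ e, l.1.val < i1 := by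
        intro e he
        unfold blk at he
        exact (Finset.mem_filter.mp he).2.1
      rcases h5 with h5 | h5
      · have h6 := hX1b h5
        rw [Finset.mem_union] at h6
        rcases h6 with h6 | h6
        · exact lt_of_lt_of_le (hX d h6 l hl) h01
        · exact hb d h6 l hl
      · exact hb d (hU1 h5) l hl

/-- **The whole game.** -/
theorem outer (h : SB q lam δ P2 pmin s K J R) (hs1 : 1 ≤ s) (p1 c1 c3 : ℝ) (hp1 : 0 ≤ p1)
    (hk : 1 ≤ k)
    (hc3 : c3 = 2 * P2 * R + 2 * P2)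
    (hc1 : lam + 2 * pmin * 2 ^ k / ((q + 1 : ℕ) : ℝ) + c3 / s ≤ c1)
    (hTP : 2 * p1 * Real.exp (c1 * s + c3) ≤ P2) (G : ℕ) (hG : 1 ≤ G)
    (hcount : ∀ (j : ℕ) (X D : Finset (Clause n)), D ⊆ blk k n (min (j * G) n)
      (min ((j + 1) * G) n) → j * G < n →
      Real.exp (n * Real.log 2 - c1 * ((min ((j + 1) * G) n).choose k : ℕ) -
        (c3 + Real.log 2) * ((j + 1 : ℕ) : ℝ)) ≤ (sols X).card →
      (∀ c ∈ D, p1 * (sols X).card < (vm X c : ℝ)) → D.card ≤ q + 1) :
    WaiterWinsCW q (board k n) ∅ := by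
  -- reaching the beginning of the block `j`
  have key : ∀ j : ℕ, j * G < n + G → Forces q (fun U' X' => U' = later k n (min (j * G) n) ∧
      (∀ d ∈ X', ∀ l ∈ d, l.1.val < min (j * G) n) ∧
      Real.exp (n * Real.log 2 - c1 * ((min (j * G) n).choose k : ℕ) -
        (c3 + Real.log 2) * (j : ℝ)) ≤ (sols X').card) (board k n) ∅ := by
    intro j
    induction j with
    | zero =>
      intro _
      refine Forces.done _ _ ⟨?_, by simp, ?_⟩
      · unfold later
        symm
        apply Finset.filter_eq_self.mpr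
        intro c hc
        have h1 := (mem_board.mp hc).1
        obtain ⟨l, hl⟩ := Finset.card_pos.mp (show 0 < c.card by omega)
        exact ⟨l, hl, by simp⟩
      · have h1 : sols (∅ : Finset (Clause n)) = Finset.univ := by
          ext s; simp [mem_sols]
        have h2 : Nat.choose 0 k = 0 := Nat.choose_eq_zero_of_lt (by omega)
        rw [h1, Finset.card_univ, Fintype.card_fun, Fintype.card_bool, Fintype.card_fin]
        simp only [zero_mul, Nat.zero_min, h2, Nat.cast_zero, mul_zero, sub_zero]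
        rw [mul_comm, Real.exp_mul, Real.exp_log (by norm_num)]
        push_cast
        rw [Real.rpow_natCast]
    | succ j ih =>
      intro hj
      have hjn : j * G < n := by
        have : (j + 1) * G = j * G + G := by ring
        omega
      refine (ih (by omega)).trans ?_
      rintro U X ⟨rfl, hX, hA⟩
      refine block h hs1 p1 c1 c3 _ hp1 hc3 hc1 hTP (min (j * G) n) (min ((j + 1) * G) n) ?_
        (min_le_right _ _) (fun X' D hD hX' hd => hcount j X' D hD hjn hX' hd) X hX ?_
      · apply min_le_min_right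
        exact Nat.mul_le_mul_right _ (Nat.le_succ j)
      · refine le_trans (Real.exp_le_exp.mpr (le_of_eq ?_)) hA
        push_cast
        ring
  obtain ⟨j, hj1, hj2⟩ : ∃ j : ℕ, n ≤ j * G ∧ j * G < n + G := by
    refine ⟨(n + G - 1) / G, ?_, ?_⟩
    · have h1 := Nat.lt_div_mul_add hG (a := n + G - 1)
      have h2 : (n + G - 1) / G * G + G = ((n + G - 1) / G) * G + G := rfl
      omega
    · have := Nat.div_mul_le_self (n + G - 1) G
      omega
  refine (key j hj2).waiterWins ?_
  rintro U X ⟨rfl, _, hA⟩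
  refine ⟨?_, ?_⟩
  · rw [min_eq_right hj1]
    unfold later
    apply Finset.filter_eq_empty_iff.mpr
    intro c _
    push Not
    intro l _
    exact l.1.isLt
  · rw [satisfiable_iff, ← Finset.card_pos]
    have h1 : (0 : ℝ) < (sols X).card := lt_of_lt_of_le (Real.exp_pos _) hA
    exact_mod_cast h1

end

end Pool.Agent.W_MP_fefad7_co.CWSharp
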