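import Pool.Agent.W_MP_fefad7_co.CWSharp.Outer
import Pool.Agent.W_MP_fefad7_co.CWSharp.CountOk

/-!
# The choice of the parameters, and the main theorem for the Client-Waiter game
-/

set_option autoImplicit false

namespace Pool.Agent.W_MP_fefad7_co.CWSharp

open Finset Filter Topology

/-- The parameters of a sub-block are admissible. -/
lemma sb_ok {q k J1 κ1 s : ℕ} {ν η P2 : ℝ} (hν0 : 0 < ν) (hν1 : ν ≤ 1)
    (hη1 : η ≤ 1) (hk : 1 ≤ k) (hJ1 : 4 ≤ (1 + ν / 8) ^ J1) (hκ1 : 8 / ν ≤ κ1) (hκ0 : 1 ≤ κ1)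
    (hk2 : 8 / ν ≤ 2 ^ k) (hP0 : 0 ≤ P2) (hP : P2 ≤ 1 / 2)
    (hQ : 8 / ν ≤ ((q + 1 : ℕ) : ℝ)) (hs : (s : ℝ) ≤ η * k * ((q + 1 : ℕ) : ℝ)) :
    SB q ((1 + ν) / ((q + 1 : ℕ) : ℝ)) (ν / 8) P2 (ν / (8 * 2 ^ k)) s
      ((q + 1) * (k * κ1 + 1)) (k * J1) (k * J1 * (k * κ1 + 1) + 2) where
  lam_pos := by positivity
  δ_pos := by positivity
  P2_nonneg := hP0
  P2_le := hP
  pmin_pos := by positivity
  pmin_le := by
    rw [div_le_iff₀ (by positivity)]
    have : (1 : ℝ) ≤ 2 ^ k := one_le_pow₀ (by norm_num)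
    nlinarith
  hJ := by
    have h2k : (0 : ℝ) < 2 ^ k := by positivity
    have h1 : (4 : ℝ) ^ k ≤ (1 + ν / 8) ^ (k * J1) := by
      rw [mul_comm, pow_mul]
      exact pow_le_pow_left₀ (by norm_num) hJ1 k
    have h2 : (4 : ℝ) ^ k = 2 ^ k * 2 ^ k := by
      rw [← mul_pow]; norm_num
    have h3 : 8 * 2 ^ k / ν ≤ (1 + ν / 8) ^ (k * J1) := by
      refine le_trans ?_ h1
      rw [h2]
      calc 8 * 2 ^ k / ν = 8 / ν * 2 ^ k := by ring
        _ ≤ 2 ^ k * 2 ^ k := mul_le_mul_of_nonneg_right hk2 h2k.le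
    have h4 : (0 : ℝ) < (1 + ν / 8) ^ (k * J1) := by positivity
    rw [div_le_iff₀ h4]
    calc P2 ≤ 1 := by linarith
      _ = ν / (8 * 2 ^ k) * (8 * 2 ^ k / ν) := by field_simp
      _ ≤ _ := mul_le_mul_of_nonneg_left h3 (by positivity)
  hK := by
    have : 1 ≤ k * κ1 := Nat.one_le_iff_ne_zero.mpr (by positivity)
    nlinarith
  key := by
    have hq : (0 : ℝ) < ((q + 1 : ℕ) : ℝ) := by positivity
    have hkR : (0 : ℝ) < k := by exact_mod_cast hk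
    have hκR : (0 : ℝ) < κ1 := by exact_mod_cast hκ0
    have e1 : ((((q + 1) * (k * κ1 + 1) : ℕ) : ℝ) - ((q + 1 : ℕ) : ℝ)) =
        ((q + 1 : ℕ) : ℝ) * (k * κ1) := by
      push_cast; ring
    have e2 : (1 + ν) / ((q + 1 : ℕ) : ℝ) * ((q + 1 : ℕ) : ℝ) = 1 + ν := by
      field_simp
    rw [e1, e2]
    have h1 : (1 + ν) / ((q + 1 : ℕ) : ℝ) ≤ ν / 4 := by
      rw [div_le_iff₀ hq]
      rw [div_le_iff₀ hν0] at hQ
      nlinarith
    have h2 : (1 + ν) / ((q + 1 : ℕ) : ℝ) * (((q + 1 : ℕ) : ℝ) * s /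
        (((q + 1 : ℕ) : ℝ) * (k * κ1))) ≤ ν / 4 := by
      have h3 : ((q + 1 : ℕ) : ℝ) * s / (((q + 1 : ℕ) : ℝ) * (k * κ1)) = s / (k * κ1) := by
        field_simp
      rw [h3]
      have h4 : (s : ℝ) / (k * κ1) ≤ ((q + 1 : ℕ) : ℝ) * (ν / 8) := by
        rw [div_le_iff₀ (by positivity)]
        have h5 : (1 : ℝ) ≤ ν / 8 * κ1 := by
          rw [div_le_iff₀ hν0] at hκ1
          linarith
        calc (s : ℝ) ≤ η * k * ((q + 1 : ℕ) : ℝ) := hs
          _ ≤ 1 * k * ((q + 1 : ℕ) : ℝ) := by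
              apply mul_le_mul_of_nonneg_right _ hq.le
              exact mul_le_mul_of_nonneg_right hη1 hkR.le
          _ = (k * ((q + 1 : ℕ) : ℝ)) * 1 := by ring
          _ ≤ (k * ((q + 1 : ℕ) : ℝ)) * (ν / 8 * κ1) :=
              mul_le_mul_of_nonneg_left h5 (by positivity)
          _ = _ := by ring
      calc (1 + ν) / ((q + 1 : ℕ) : ℝ) * ((s : ℝ) / (k * κ1)) ≤
            (1 + ν) / ((q + 1 : ℕ) : ℝ) * (((q + 1 : ℕ) : ℝ) * (ν / 8)) :=
            mul_le_mul_of_nonneg_left h4 (by positivity)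
        _ = (1 + ν) * (ν / 8) := by field_simp
        _ ≤ ν / 4 := by nlinarith
    have h3 : 1 + ν / 2 ≤ (1 + ν) / (1 + ν / 8) := by
      rw [le_div_iff₀ (by positivity)]
      nlinarith
    refine le_trans (le_of_eq ?_) ((add_le_add (le_refl (1 : ℝ)) (add_le_add h1 h2)).trans
      (le_trans (le_of_eq ?_) h3))
    · ring
    · ring
  hR := by
    nlinarith

/-- The conditions on `k`. -/
lemma eventually_k (a β ν η : ℝ) (ha : 0 < a) (hβ : 0 < β) (hν : 0 < ν) (hη : 0 < η)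
    (J1 κ1 G : ℕ) : ∀ᶠ k : ℕ in atTop, 2 ≤ k ∧ 8 / ν ≤ 2 ^ k ∧
      Real.exp (-(a / 2 * k)) ≤ 1 / 2 ∧
      2 * Real.exp (-(a / 2 * k)) * ((k * J1 * (k * κ1 + 1) + 2 : ℕ) : ℝ) +
        2 * Real.exp (-(a / 2 * k)) ≤ min (ν * η / 8) 1 ∧
      2 * Real.exp 1 * Real.exp (-(a / 4 * k)) ≤ 1 ∧
      4 * (G : ℝ) * k * Real.exp (-(β / 2 * k)) ≤ 1 := by
  have hr : ∀ c : ℝ, 0 < c → |Real.exp (-c)| < 1 := by
    intro c hc
    rw [abs_of_pos (Real.exp_pos _)]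
    have := Real.exp_lt_exp.mpr (show -c < 0 by linarith)
    rwa [Real.exp_zero] at this
  have he : ∀ (c : ℝ) (k : ℕ), Real.exp (-(c * k)) = Real.exp (-c) ^ k := by
    intro c k
    rw [← Real.exp_nat_mul]
    congr 1; ring
  have t0 : ∀ c : ℝ, 0 < c → Tendsto (fun k : ℕ => Real.exp (-(c * k))) atTop (𝓝 0) := by
    intro c hc
    simp only [he]
    exact tendsto_pow_atTop_nhds_zero_of_abs_lt_one (hr c hc)
  have t1 : ∀ (c : ℝ) (m : ℕ), 0 < c →
      Tendsto (fun k : ℕ => (k : ℝ) ^ m * Real.exp (-(c * k))) atTop (𝓝 0) := by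
    intro c m hc
    simp only [he]
    exact tendsto_pow_const_mul_const_pow_of_abs_lt_one m (hr c hc)
  have ha2 : 0 < a / 2 := by positivity
  have tk : Tendsto (fun k : ℕ => (2 : ℝ) ^ k) atTop atTop :=
    tendsto_pow_atTop_atTop_of_one_lt (by norm_num)
  have t2 : Tendsto (fun k : ℕ => 2 * Real.exp (-(a / 2 * k)) *
      ((k * J1 * (k * κ1 + 1) + 2 : ℕ) : ℝ) + 2 * Real.exp (-(a / 2 * k))) atTop (𝓝 0) := by
    have h := (((t1 _ 2 ha2).const_mul (2 * (J1 : ℝ) * κ1)).add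
      ((t1 _ 1 ha2).const_mul (2 * (J1 : ℝ)))).add ((t0 _ ha2).const_mul 6)
    simp only [mul_zero, add_zero] at h
    refine h.congr fun k => ?_
    push_cast
    ring
  have t3 : Tendsto (fun k : ℕ => 2 * Real.exp 1 * Real.exp (-(a / 4 * k))) atTop (𝓝 0) := by
    have h := (t0 (a / 4) (by positivity)).const_mul (2 * Real.exp 1)
    simpa using h
  have t4 : Tendsto (fun k : ℕ => 4 * (G : ℝ) * k * Real.exp (-(β / 2 * k))) atTop (𝓝 0) := by
    have h := (t1 (β / 2) 1 (by positivity)).const_mul (4 * (G : ℝ))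
    simp only [mul_zero] at h
    refine h.congr fun k => ?_
    ring
  filter_upwards [eventually_ge_atTop 2, tk.eventually_ge_atTop (8 / ν),
    (t0 _ ha2).eventually_le_const (by norm_num : (0 : ℝ) < 1 / 2),
    t2.eventually_le_const (show (0 : ℝ) < min (ν * η / 8) 1 by positivity),
    t3.eventually_le_const (by norm_num : (0 : ℝ) < 1),
    t4.eventually_le_const (by norm_num : (0 : ℝ) < 1)] with k h1 h2 h3 h4 h5 h6
  exact ⟨h1, h2, h3, h4, h5, h6⟩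

/-- **The Client-Waiter game**: for every `χ < log 2` and all large `k`, Waiter wins whenever
`n ^ k / (k! (q + 1)) ≤ χ n`. -/
theorem waiterWinsCW_sharp (χ : ℝ) (hχ0 : 0 < χ) (hχ1 : χ < Real.log 2) :
    ∃ k0 : ℕ, ∀ k ≥ k0, ∃ n0 : ℕ, ∀ n ≥ n0, ∀ q : ℕ,
      (n : ℝ) ^ k / ((k.factorial : ℝ) * ((q + 1 : ℕ) : ℝ)) ≤ χ * n →
      WaiterWinsCW q (board k n) ∅ := by
  have hL := log_two_lt_one
  have hL0 : 0 < Real.log 2 := Real.log_pos (by norm_num)
  obtain ⟨g, hg⟩ : ∃ g : ℝ, g = Real.log 2 - χ := ⟨_, rfl⟩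
  have hg0 : 0 < g := by rw [hg]; linarith
  have hg1 : g < 1 := by linarith
  obtain ⟨ν, hν⟩ : ∃ ν : ℝ, ν = g / 8 := ⟨_, rfl⟩
  have hν0 : 0 < ν := by rw [hν]; positivity
  have hν1 : ν ≤ 1 := by rw [hν]; linarith
  obtain ⟨y, hy⟩ : ∃ y : ℝ, y = g / 8 := ⟨_, rfl⟩
  have hy0 : 0 < y := by rw [hy]; positivity
  have hy1 : y < 1 := by rw [hy]; linarith
  have hly : 0 < Real.log (1 / y) := Real.log_pos (by rw [lt_div_iff₀ hy0]; linarith)
  obtain ⟨β, hβ⟩ : ∃ β : ℝ, β = min (1 / 2) (g / 16 / Real.log (1 / y)) := ⟨_, rfl⟩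
  have hβ0 : 0 < β := by rw [hβ]; positivity
  have hβ1 : β ≤ 1 / 2 := by rw [hβ]; exact min_le_left _ _
  have hβ2 : β * Real.log (1 / y) ≤ g / 16 := by
    have h1 : β ≤ g / 16 / Real.log (1 / y) := by rw [hβ]; exact min_le_right _ _
    rwa [le_div_iff₀ hly] at h1
  obtain ⟨a, ha⟩ : ∃ a : ℝ, a = β / 4 := ⟨_, rfl⟩
  have ha0 : 0 < a := by rw [ha]; positivity
  obtain ⟨η, hη⟩ : ∃ η : ℝ, η = a / 10 := ⟨_, rfl⟩
  have hη0 : 0 < η := by rw [hη]; positivity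
  have hη1 : η ≤ 1 := by rw [hη, ha]; linarith
  obtain ⟨J1, hJ1⟩ : ∃ J1 : ℕ, (4 : ℝ) ≤ (1 + ν / 8) ^ J1 := by
    obtain ⟨J1, h⟩ := pow_unbounded_of_one_lt (4 : ℝ) (show 1 < 1 + ν / 8 by linarith)
    exact ⟨J1, h.le⟩
  obtain ⟨κ1, hκ1⟩ := exists_nat_ge (8 / ν)
  have hκ0 : 1 ≤ κ1 := by
    have h1 : (0 : ℝ) < κ1 := lt_of_lt_of_le (by positivity) hκ1
    exact_mod_cast h1
  obtain ⟨G, hG⟩ := exists_nat_ge (16 / g)
  have hG1 : 1 ≤ G := by
    have h1 : (0 : ℝ) < G := lt_of_lt_of_le (by positivity) hG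
    exact_mod_cast h1
  obtain ⟨k0, hk0⟩ := eventually_atTop.mp (eventually_k a β ν η ha0 hβ0 hν0 hη0 J1 κ1 G)
  refine ⟨k0, fun k hk => ?_⟩
  obtain ⟨hk2, hk2ν, hkP, hkc3, hkTP, hkG⟩ := hk0 k hk
  have hk1 : 1 ≤ k := by omega
  have hkR : (1 : ℝ) ≤ k := by exact_mod_cast hk1
  -- the conditions on `n`
  obtain ⟨n1, hn1⟩ := exists_nat_ge
    ((Real.log (1 / y) + ((k - 1 : ℕ) : ℝ) * Real.log 2 + 2) / (3 * g / 16))
  obtain ⟨n2, hn2⟩ := exists_nat_ge ((k.factorial : ℝ) * (8 / ν))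
  obtain ⟨n3, hn3⟩ := exists_nat_ge ((k.factorial : ℝ) * (2 / η))
  refine ⟨n1 + n2 + n3 + 1, fun n hn q hQ => ?_⟩
  have hn0 : 0 < n := by omega
  have hnR : (1 : ℝ) ≤ n := by exact_mod_cast hn0
  have hnn1 : (n1 : ℝ) ≤ n := by exact_mod_cast (show n1 ≤ n by omega)
  have hnn2 : (n2 : ℝ) ≤ n := by exact_mod_cast (show n2 ≤ n by omega)
  have hnn3 : (n3 : ℝ) ≤ n := by exact_mod_cast (show n3 ≤ n by omega)
  have hf : (0 : ℝ) < k.factorial := by exact_mod_cast Nat.factorial_pos k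
  have hq : (0 : ℝ) < ((q + 1 : ℕ) : ℝ) := by positivity
  obtain ⟨Q, hQd⟩ : ∃ Q : ℝ, Q = ((q + 1 : ℕ) : ℝ) := ⟨_, rfl⟩
  have hQ0 : 0 < Q := by rw [hQd]; exact hq
  have hnQ : (n : ℝ) ≤ k.factorial * Q := by
    have h1 := pow_pred_le hn0 hk1 hQ
    have h2 : (n : ℝ) ≤ (n : ℝ) ^ (k - 1) := le_self_pow₀ hnR (by omega)
    have h3 : χ * (k.factorial * ((q + 1 : ℕ) : ℝ)) ≤ 1 * (k.factorial * ((q + 1 : ℕ) : ℝ)) :=
      mul_le_mul_of_nonneg_right (by linarith) (by positivity)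
    rw [hQd]
    linarith
  have hQν : 8 / ν ≤ Q := by
    have h1 : (k.factorial : ℝ) * (8 / ν) ≤ k.factorial * Q := by linarith
    exact le_of_mul_le_mul_left h1 hf
  have hQη : 2 / η ≤ Q := by
    have h1 : (k.factorial : ℝ) * (2 / η) ≤ k.factorial * Q := by linarith
    exact le_of_mul_le_mul_left h1 hf
  have hηQ : 2 ≤ η * k * Q := by
    rw [div_le_iff₀ hη0] at hQη
    calc (2 : ℝ) ≤ Q * η := hQη
      _ = (Q * η) * 1 := by ring
      _ ≤ (Q * η) * k := mul_le_mul_of_nonneg_left hkR (by positivity)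
      _ = _ := by ring
  set s : ℕ := ⌊η * k * Q⌋₊ with hs
  have hsle : (s : ℝ) ≤ η * k * Q := Nat.floor_le (by positivity)
  have hsge : η * k * Q / 2 ≤ (s : ℝ) := by
    have := Nat.lt_floor_add_one (η * k * Q)
    rw [← hs] at this
    linarith
  have hs1R : (1 : ℝ) ≤ s := by linarith
  have hs1 : 1 ≤ s := by exact_mod_cast hs1R
  set P2 : ℝ := Real.exp (-(a / 2 * k)) with hP2
  have hP20 : 0 < P2 := Real.exp_pos _
  have hSB := sb_ok (q := q) (k := k) (J1 := J1) (κ1 := κ1) (s := s) (ν := ν) (η := η) (P2 := P2)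
    hν0 hν1 hη1 hk1 hJ1 hκ1 hκ0 hk2ν hP20.le hkP (hQd ▸ hQν) (hQd ▸ hsle)
  set R : ℕ := k * J1 * (k * κ1 + 1) + 2 with hR
  set c3 : ℝ := 2 * P2 * R + 2 * P2 with hc3
  have hc30 : 0 < c3 := by rw [hc3]; positivity
  have hc3a : c3 ≤ ν * η / 8 := hkc3.trans (min_le_left _ _)
  have hc3b : c3 ≤ 1 := hkc3.trans (min_le_right _ _)
  set c1 : ℝ := (1 + 3 * ν / 2) / ((q + 1 : ℕ) : ℝ) with hc1
  have hc1' : c1 = (1 + 3 * ν / 2) / Q := by rw [hc1, hQd]
  set p1 : ℝ := Real.exp (-(a * k)) with hp1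
  have hp10 : 0 < p1 := Real.exp_pos _
  refine outer hSB hs1 p1 c1 c3 hp10.le hk1 hc3 ?_ ?_ G hG1 ?_
  · rw [hc1', ← hQd]
    have h2k : (0 : ℝ) < 2 ^ k := by positivity
    have e1 : 2 * (ν / (8 * 2 ^ k)) * 2 ^ k / Q = ν / 4 / Q := by
      field_simp
      ring
    have e2 : c3 / s ≤ ν / 4 / Q := by
      rw [div_le_div_iff₀ (by linarith) hQ0]
      calc c3 * Q ≤ ν * η / 8 * Q := mul_le_mul_of_nonneg_right hc3a hQ0.le
        _ = (ν * η / 8 * Q) * 1 := by ring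
        _ ≤ (ν * η / 8 * Q) * k := mul_le_mul_of_nonneg_left hkR (by positivity)
        _ = ν / 4 * (η * k * Q / 2) := by ring
        _ ≤ ν / 4 * s := mul_le_mul_of_nonneg_left hsge (by positivity)
    rw [e1]
    calc (1 + ν) / Q + ν / 4 / Q + c3 / s ≤ (1 + ν) / Q + ν / 4 / Q + ν / 4 / Q := by linarith
      _ = (1 + 3 * ν / 2) / Q := by ring
  · have h1 : c1 * s + c3 ≤ a / 4 * k + 1 := by
      have h2 : c1 * s ≤ a / 4 * k := by
        rw [hc1']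
        calc (1 + 3 * ν / 2) / Q * s ≤ (1 + 3 * ν / 2) / Q * (η * k * Q) :=
              mul_le_mul_of_nonneg_left hsle (by positivity)
          _ = (1 + 3 * ν / 2) * (η * k) := by field_simp
          _ ≤ (5 / 2) * (η * k) := mul_le_mul_of_nonneg_right (by linarith) (by positivity)
          _ = a / 4 * k := by rw [hη]; ring
      linarith
    calc 2 * p1 * Real.exp (c1 * s + c3) ≤ 2 * p1 * Real.exp (a / 4 * k + 1) :=
          mul_le_mul_of_nonneg_left (Real.exp_le_exp.mpr h1) (by positivity)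
      _ = (2 * Real.exp 1 * Real.exp (-(a / 4 * k))) * P2 := by
          rw [hp1, hP2, mul_assoc 2, mul_assoc 2, mul_assoc 2, ← Real.exp_add, ← Real.exp_add,
            ← Real.exp_add]
          congr 2
          ring
      _ ≤ 1 * P2 := mul_le_mul_of_nonneg_right hkTP hP20.le
      _ = P2 := one_mul _
  · refine count_ok (g := g) (χ := χ) (ν := ν) (β := β) (y := y) hg0 hg hχ0 hν0 (by rw [hν]) hc1
      hc3b hG hy hβ1 hβ2 hk1 hn0 hQ ?_ hp10 ?_
    · rw [div_le_iff₀ (by positivity)] at hn1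
      have : (n1 : ℝ) * (3 * g / 16) ≤ n * (3 * g / 16) :=
        mul_le_mul_of_nonneg_right hnn1 (by positivity)
      linarith
    · have h1 : (1 - β) ^ (k - 1) ≤ 2 * Real.exp (-(β * k)) := by
        have h2 : (1 - β) ^ (k - 1) ≤ Real.exp (-β) ^ (k - 1) := by
          apply pow_le_pow_left₀ (by linarith)
          have := Real.add_one_le_exp (-β)
          linarith
        have h3 : Real.exp (-β) ^ (k - 1) = Real.exp β * Real.exp (-(β * k)) := by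
          rw [← Real.exp_nat_mul, ← Real.exp_add]
          congr 1
          rw [Nat.cast_sub hk1]
          push_cast
          ring
        have h4 : Real.exp β ≤ 2 := by
          have h5 : Real.exp β ≤ Real.exp (1 / 2) := Real.exp_le_exp.mpr hβ1
          have h6 : Real.exp (1 / 2) ^ 2 = Real.exp 1 := by
            rw [← Real.exp_nat_mul]; norm_num
          have h7 := Real.exp_one_lt_d9
          have h8 : 0 < Real.exp (1 / 2) := Real.exp_pos _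
          nlinarith
        refine h2.trans (h3.le.trans ?_)
        exact mul_le_mul_of_nonneg_right h4 (Real.exp_pos _).le
      have h2 : p1 ^ 2 = Real.exp (-(β / 2 * k)) := by
        rw [hp1, ← Real.exp_nat_mul]
        congr 1
        rw [ha]
        push_cast
        ring
      have h3 : Real.exp (-(β * k)) = Real.exp (-(β / 2 * k)) * Real.exp (-(β / 2 * k)) := by
        rw [← Real.exp_add]
        congr 1
        ring
      calc 2 * (G : ℝ) * k * (1 - β) ^ (k - 1) ≤ 2 * (G : ℝ) * k * (2 * Real.exp (-(β * k))) :=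
            mul_le_mul_of_nonneg_left h1 (by positivity)
        _ = (4 * (G : ℝ) * k * Real.exp (-(β / 2 * k))) * Real.exp (-(β / 2 * k)) := by
            rw [h3]; ring
        _ ≤ 1 * Real.exp (-(β / 2 * k)) := mul_le_mul_of_nonneg_right hkG (Real.exp_pos _).le
        _ = p1 ^ 2 := by rw [h2, one_mul]

end Pool.Agent.W_MP_fefad7_co.CWSharp
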