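import Pool.Agent.W_MP_fefad7_co.CWSharp.Force
import Pool.Agent.W_MP_fefad7_co.CWSharp.Level

/-!
# Playing one symmetric sub-block
-/

set_option autoImplicit false

namespace Pool.Agent.W_MP_fefad7_co.CWSharp

open Finset

lemma exp_neg_two_le {x : ℝ} (h0 : 0 ≤ x) (h1 : x ≤ 1 / 2) : Real.exp (-(2 * x)) ≤ 1 - x := by
  rw [Real.exp_neg]
  have h2 : 1 + 2 * x ≤ Real.exp (2 * x) := by
    have := Real.add_one_le_exp (2 * x)
    linarith
  have h3 : (0 : ℝ) < 1 + 2 * x := by linarith
  calc (Real.exp (2 * x))⁻¹ ≤ (1 + 2 * x)⁻¹ := inv_anti₀ h3 h2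
    _ ≤ 1 - x := by
        rw [inv_le_iff_one_le_mul₀ h3]
        nlinarith

/-- The parameters of a sub-block. -/
structure SB (q : ℕ) (lam δ P2 pmin : ℝ) (s K J R : ℕ) : Prop where
  lam_pos : 0 < lam
  δ_pos : 0 < δ
  P2_nonneg : 0 ≤ P2
  P2_le : P2 ≤ 1 / 2
  pmin_pos : 0 < pmin
  pmin_le : pmin ≤ 1 / 2
  hJ : P2 / (1 + δ) ^ J ≤ pmin
  hK : q + 1 < K
  key : 1 + lam * (1 + ((q + 1 : ℕ) : ℝ) * s / (K - ((q + 1 : ℕ) : ℝ))) ≤
    lam * ((q + 1 : ℕ) : ℝ) / (1 + δ)
  hR : q + J * K + q ≤ (q + 1) * R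

lemma pigeon {γ : Type*} [DecidableEq γ] (F : Finset γ) (p : γ → ℝ) (P2 pmin δ : ℝ) (q K J : ℕ)
    (hle : ∀ c ∈ F, p c ≤ P2) (hJ : P2 / (1 + δ) ^ J ≤ pmin)
    (hcard : q + J * K < F.card) :
    q + 1 ≤ (F.filter fun c => p c ≤ pmin).card ∨
      ∃ i, K ≤ (F.filter fun c => P2 / (1 + δ) ^ (i + 1) < p c ∧ p c ≤ P2 / (1 + δ) ^ i).card := by
  by_contra hcon
  push Not at hcon
  obtain ⟨h1, h2⟩ := hcon
  have hsub : F ⊆ (F.filter fun c => p c ≤ pmin) ∪ (Finset.range J).biUnion fun i =>
      F.filter fun c => P2 / (1 + δ) ^ (i + 1) < p c ∧ p c ≤ P2 / (1 + δ) ^ i := by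
    intro c hc
    rw [Finset.mem_union, Finset.mem_filter, Finset.mem_biUnion]
    by_cases h3 : p c ≤ pmin
    · exact Or.inl ⟨hc, h3⟩
    · right
      push Not at h3
      have hex : ∃ i, P2 / (1 + δ) ^ i < p c := ⟨J, lt_of_le_of_lt hJ h3⟩
      classical
      have hspec := Nat.find_spec hex
      have hle' : Nat.find hex ≤ J := Nat.find_min' hex (lt_of_le_of_lt hJ h3)
      have hpos : Nat.find hex ≠ 0 := by
        intro h0
        rw [h0] at hspec
        simp only [pow_zero, div_one] at hspec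
        exact absurd (hle c hc) (not_le.mpr hspec)
      obtain ⟨i, hi⟩ := Nat.exists_eq_succ_of_ne_zero hpos
      refine ⟨i, Finset.mem_range.mpr (by omega), Finset.mem_filter.mpr ⟨hc, ?_, ?_⟩⟩
      · rw [← Nat.succ_eq_add_one, ← hi]; exact hspec
      · have := Nat.find_min hex (m := i) (by omega)
        exact not_lt.mp this
  have h3 : F.card ≤ q + J * K := by
    calc F.card ≤ _ := Finset.card_le_card hsub
      _ ≤ (F.filter fun c => p c ≤ pmin).card + ((Finset.range J).biUnion fun i =>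
          F.filter fun c => P2 / (1 + δ) ^ (i + 1) < p c ∧ p c ≤ P2 / (1 + δ) ^ i).card :=
          Finset.card_union_le _ _
      _ ≤ q + ∑ i ∈ Finset.range J, K := by
          apply Nat.add_le_add (by omega)
          refine Finset.card_biUnion_le.trans (Finset.sum_le_sum fun i _ => (h2 i).le)
      _ = q + J * K := by rw [Finset.sum_const, Finset.card_range, smul_eq_mul]
  omega

variable {n : ℕ}

/-- The potential of a sub-block. -/
noncomputable def phi (lam : ℝ) (F X : Finset (Clause n)) : ℝ :=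
  ∑ σ ∈ sols X, Real.exp (-(lam * (F ∩ viol σ).card))

lemma phi_step (lam : ℝ) (F X B : Finset (Clause n)) (hB : B ⊆ F) (c : Clause n) :
    phi lam (F \ B) (insert c X) = ∑ σ ∈ (sols X).filter (fun σ => c ∉ viol σ),
      Real.exp (-(lam * (F ∩ viol σ).card)) * Real.exp (lam * (B ∩ viol σ).card) := by
  unfold phi
  rw [sols_insert]
  refine Finset.sum_congr rfl fun σ _ => ?_
  rw [← Real.exp_add]
  congr 1
  have h1 : ((F \ B) ∩ viol σ).card + (B ∩ viol σ).card = (F ∩ viol σ).card := by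
    rw [← Finset.card_union_of_disjoint]
    · congr 1
      ext x
      simp only [Finset.mem_union, Finset.mem_inter, Finset.mem_sdiff]
      constructor
      · rintro (⟨⟨h1, _⟩, h2⟩ | ⟨h1, h2⟩)
        · exact ⟨h1, h2⟩
        · exact ⟨hB h1, h2⟩
      · rintro ⟨h1, h2⟩
        by_cases h3 : x ∈ B
        · exact Or.inr ⟨h3, h2⟩
        · exact Or.inl ⟨⟨h1, h3⟩, h2⟩
    · rw [Finset.disjoint_left]
      intro x hx hx'
      exact (Finset.mem_sdiff.mp (Finset.mem_inter.mp hx).1).2 (Finset.mem_inter.mp hx').1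
  have h2 : (((F \ B) ∩ viol σ).card : ℝ) + ((B ∩ viol σ).card : ℝ) =
      ((F ∩ viol σ).card : ℝ) := by exact_mod_cast h1
  rw [← h2]
  ring

lemma phi_empty (lam : ℝ) (X : Finset (Clause n)) : phi lam ∅ X = (sols X).card := by
  unfold phi
  simp

lemma union_sdiff_of_disjoint {α : Type*} [DecidableEq α] {F R0 B : Finset α}
    (h : Disjoint F R0) (hB : B ⊆ F) : (F ∪ R0) \ B = (F \ B) ∪ R0 := by
  ext x
  simp only [Finset.mem_sdiff, Finset.mem_union]
  constructor
  · rintro ⟨h4 | h4, h5⟩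
    · exact Or.inl ⟨h4, h5⟩
    · exact Or.inr h4
  · rintro (⟨h4, h5⟩ | h4)
    · exact ⟨Or.inl h4, h5⟩
    · exact ⟨Or.inr h4, fun h5 => Finset.disjoint_left.mp h (hB h5) h4⟩

/-- The mass of the solutions violating `c`, in the sub-block. -/
noncomputable def ms (lam : ℝ) (F X : Finset (Clause n)) (c : Clause n) : ℝ :=
  mass (sols X) (fun σ => viol σ) (fun σ => Real.exp (-(lam * (F ∩ viol σ).card))) c

lemma ms_le_vm {lam : ℝ} (hlam : 0 ≤ lam) (F X : Finset (Clause n)) (c : Clause n) :
    ms lam F X c ≤ vm X c := by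
  unfold ms mass vm
  rw [Finset.card_eq_sum_ones, Nat.cast_sum]
  apply Finset.sum_le_sum
  intro σ _
  simp only [Nat.cast_one]
  apply Real.exp_le_one_iff.mpr
  have : 0 ≤ lam * ((F ∩ viol σ).card : ℝ) := by positivity
  linarith

/-- One round of the Client-Waiter game in the sub-block. -/
lemma forces_offer {q : ℕ} {P : Finset (Clause n) → Finset (Clause n) → Prop}
    {F R0 X B : Finset (Clause n)} (hd : Disjoint F R0) (hB : B ⊆ F) (hne : B.Nonempty)
    (hc : B.card ≤ q + 1) (h : ∀ c ∈ B, Forces q P ((F \ B) ∪ R0) (insert c X)) :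
    Forces q P (F ∪ R0) X := by
  refine Forces.offer _ _ B (hB.trans Finset.subset_union_left) hne hc fun c hcB => ?_
  rw [union_sdiff_of_disjoint hd hB]
  exact h c hcB

section Main

variable {q : ℕ} {lam δ P2 pmin : ℝ} {s K J R : ℕ}

lemma phase_two (h : SB q lam δ P2 pmin s K J R) (R0 F X : Finset (Clause n))
    (hd : Disjoint F R0) (p1 T A0 : ℝ)
    (hA0 : 0 < A0) (hvm : ∀ c ∈ F, (vm X c : ℝ) ≤ p1 * A0)
    (hTP : p1 * Real.exp T ≤ P2) (hp1 : 0 ≤ p1) :
    ∀ (N : ℕ) (F' X' : Finset (Clause n)), F'.card ≤ N → F' ⊆ F → X ⊆ X' → X' ⊆ X ∪ F →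
      A0 * Real.exp (-T + 2 * P2 * (((F'.card + q) / (q + 1) : ℕ) : ℝ)) ≤ phi lam F' X' →
      Forces q (fun U' X' => U' = R0 ∧ X ⊆ X' ∧ X' ⊆ X ∪ F ∧
        A0 * Real.exp (-T) ≤ (sols X').card) (F' ∪ R0) X' := by
  have hP20 := h.P2_nonneg
  have hlam := h.lam_pos.le
  intro N
  induction N with
  | zero =>
    intro F' X' hc hF hX1 hX2 hphi
    have : F' = ∅ := Finset.card_eq_zero.mp (by omega)
    subst this
    rw [phi_empty, Finset.card_empty, zero_add, Nat.div_eq_of_lt (Nat.lt_succ_self q)] at hphi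
    refine Forces.done _ _ ⟨Finset.empty_union _, hX1, hX2, ?_⟩
    simpa using hphi
  | succ N ih =>
    intro F' X' hc hF hX1 hX2 hphi
    rcases F'.eq_empty_or_nonempty with rfl | hne
    · rw [phi_empty, Finset.card_empty, zero_add, Nat.div_eq_of_lt (Nat.lt_succ_self q)] at hphi
      refine Forces.done _ _ ⟨Finset.empty_union _, hX1, hX2, ?_⟩
      simpa using hphi
    · have hpos : 0 < F'.card := Finset.card_pos.mpr hne
      obtain ⟨B, hBF, hBc⟩ := Finset.exists_subset_card_eq
        (show min (q + 1) F'.card ≤ F'.card from min_le_right _ _)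
      have hBpos : 0 < B.card := by rw [hBc]; exact lt_min (Nat.succ_pos q) hpos
      refine forces_offer (Disjoint.mono_left hF hd) hBF (Finset.card_pos.mp hBpos)
        (by rw [hBc]; exact min_le_left _ _) fun c hcB => ?_
      have hcF : c ∈ F := hF (hBF hcB)
      have hcard : (F' \ B).card = F'.card - B.card := Finset.card_sdiff_of_subset hBF
      refine ih _ _ (by omega) (Finset.sdiff_subset.trans hF) (hX1.trans (Finset.subset_insert _ _))
        (Finset.insert_subset (Finset.mem_union_right _ hcF) hX2) ?_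
      -- the potential
      have hceil : ((F' \ B).card + q) / (q + 1) + 1 = (F'.card + q) / (q + 1) := by
        rw [hcard, hBc]
        rcases le_total (q + 1) F'.card with hle | hle
        · rw [min_eq_left hle]
          have : F'.card + q = (F'.card - (q + 1) + q) + (q + 1) := by omega
          rw [this, Nat.add_div_right _ (Nat.succ_pos q)]
        · rw [min_eq_right hle, Nat.sub_self, zero_add, Nat.div_eq_of_lt (Nat.lt_succ_self q)]
          have h1 : (F'.card + q) / (q + 1) < 2 := by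
            rw [Nat.div_lt_iff_lt_mul (Nat.succ_pos q)]; omega
          have h2 : 1 ≤ (F'.card + q) / (q + 1) := by
            rw [Nat.le_div_iff_mul_le (Nat.succ_pos q)]; omega
          omega
      have hphi1 : A0 * Real.exp (-T) ≤ phi lam F' X' := by
        refine le_trans ?_ hphi
        apply mul_le_mul_of_nonneg_left _ hA0.le
        apply Real.exp_le_exp.mpr
        have : 0 ≤ 2 * P2 * (((F'.card + q) / (q + 1) : ℕ) : ℝ) := by positivity
        linarith
      have hms : ms lam F' X' c ≤ P2 * phi lam F' X' := by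
        have h1 : ms lam F' X' c ≤ p1 * A0 := by
          refine (ms_le_vm hlam F' X' c).trans (le_trans ?_ (hvm c hcF))
          exact_mod_cast vm_mono hX1 c
        refine h1.trans ?_
        have h2 : A0 ≤ Real.exp T * phi lam F' X' := by
          have := mul_le_mul_of_nonneg_left hphi1 (Real.exp_pos T).le
          have h3 : Real.exp T * (A0 * Real.exp (-T)) = A0 := by
            rw [mul_comm A0, ← mul_assoc, ← Real.exp_add]
            simp
          rwa [h3] at this
        have hphi0 : 0 ≤ phi lam F' X' := le_trans (by positivity) hphi1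
        calc p1 * A0 ≤ p1 * (Real.exp T * phi lam F' X') := mul_le_mul_of_nonneg_left h2 hp1
          _ = (p1 * Real.exp T) * phi lam F' X' := by ring
          _ ≤ P2 * phi lam F' X' := mul_le_mul_of_nonneg_right hTP hphi0
      have hstep := trivial_step (sols X') (fun σ => viol σ)
        (fun σ => Real.exp (-(lam * (F' ∩ viol σ).card))) (fun σ => (Real.exp_pos _).le) B lam hlam c
      rw [← phi_step lam F' X' B hBF c] at hstep
      have hstep' : phi lam F' X' - ms lam F' X' c ≤ phi lam (F' \ B) (insert c X') := hstep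
      have h4 : Real.exp (-(2 * P2)) * phi lam F' X' ≤ phi lam (F' \ B) (insert c X') := by
        have hphi0 : 0 ≤ phi lam F' X' := le_trans (by positivity) hphi1
        have := mul_le_mul_of_nonneg_right (exp_neg_two_le hP20 h.P2_le) hphi0
        linarith
      refine le_trans ?_ h4
      have h5 := mul_le_mul_of_nonneg_left hphi (Real.exp_pos (-(2 * P2))).le
      refine le_trans (le_of_eq ?_) h5
      rw [← hceil]
      push_cast
      rw [show Real.exp (-(2 * P2)) * (A0 * Real.exp (-T + 2 * P2 *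
        (((((F' \ B).card + q) / (q + 1) : ℕ) : ℝ) + 1))) = A0 * (Real.exp (-(2 * P2)) *
        Real.exp (-T + 2 * P2 * (((((F' \ B).card + q) / (q + 1) : ℕ) : ℝ) + 1))) by ring,
        ← Real.exp_add]
      congr 2
      ring

lemma phase_one (h : SB q lam δ P2 pmin s K J R) (R0 F X : Finset (Clause n))
    (hd : Disjoint F R0) (p1 T A0 : ℝ)
    (hA0 : 0 < A0) (hvm : ∀ c ∈ F, (vm X c : ℝ) ≤ p1 * A0)
    (hs : ∀ σ ∈ sols X, (F ∩ viol σ).card ≤ s)
    (hT : T = lam * s + 2 * pmin * (F.card / ((q + 1 : ℕ) : ℝ)) + 2 * P2 * R)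
    (hTP : p1 * Real.exp T ≤ P2) (hp1 : 0 ≤ p1) :
    ∀ (N : ℕ) (F' X' : Finset (Clause n)), F'.card ≤ N → F' ⊆ F → X ⊆ X' → X' ⊆ X ∪ F →
      A0 * Real.exp (-(lam * s + 2 * pmin * ((F.card - F'.card) / ((q + 1 : ℕ) : ℝ)))) ≤
        phi lam F' X' →
      Forces q (fun U' X' => U' = R0 ∧ X ⊆ X' ∧ X' ⊆ X ∪ F ∧
        A0 * Real.exp (-T) ≤ (sols X').card) (F' ∪ R0) X' := by
  have hP20 := h.P2_nonneg
  have hlam := h.lam_pos.le
  have hpm := h.pmin_pos.le
  have hQ : (0 : ℝ) < ((q + 1 : ℕ) : ℝ) := by positivity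
  -- the final phase
  have hfin : ∀ (F' X' : Finset (Clause n)), F'.card ≤ q + J * K → F' ⊆ F → X ⊆ X' →
      X' ⊆ X ∪ F →
      A0 * Real.exp (-(lam * s + 2 * pmin * ((F.card - F'.card) / ((q + 1 : ℕ) : ℝ)))) ≤
        phi lam F' X' →
      Forces q (fun U' X' => U' = R0 ∧ X ⊆ X' ∧ X' ⊆ X ∪ F ∧
        A0 * Real.exp (-T) ≤ (sols X').card) (F' ∪ R0) X' := by
    intro F' X' hc hF hX1 hX2 hphi
    refine phase_two h R0 F X hd p1 T A0 hA0 hvm hTP hp1 F'.card F' X' le_rfl hF hX1 hX2
      (le_trans ?_ hphi)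
    apply mul_le_mul_of_nonneg_left _ hA0.le
    apply Real.exp_le_exp.mpr
    have h1 : (((F'.card + q) / (q + 1) : ℕ) : ℝ) ≤ R := by
      have : (F'.card + q) / (q + 1) ≤ R := by
        apply Nat.div_le_of_le_mul
        have := h.hR
        omega
      exact_mod_cast this
    have h2 : 0 ≤ 2 * pmin * (F'.card / ((q + 1 : ℕ) : ℝ)) := by positivity
    have h3 : 2 * P2 * (((F'.card + q) / (q + 1) : ℕ) : ℝ) ≤ 2 * P2 * R :=
      mul_le_mul_of_nonneg_left h1 (by positivity)
    have h4 : 2 * pmin * ((F.card - F'.card) / ((q + 1 : ℕ) : ℝ)) =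
        2 * pmin * (F.card / ((q + 1 : ℕ) : ℝ)) - 2 * pmin * (F'.card / ((q + 1 : ℕ) : ℝ)) := by
      ring
    rw [hT, h4]
    linarith
  intro N
  induction N with
  | zero =>
    intro F' X' hc hF hX1 hX2 hphi
    exact hfin F' X' (by omega) hF hX1 hX2 hphi
  | succ N ih =>
    intro F' X' hc hF hX1 hX2 hphi
    by_cases hcard : F'.card ≤ q + J * K
    · exact hfin F' X' hcard hF hX1 hX2 hphi
    push Not at hcard
    have hFF : (F'.card : ℝ) ≤ F.card := by exact_mod_cast Finset.card_le_card hF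
    -- the potential is large
    have hphi1 : A0 * Real.exp (-T) ≤ phi lam F' X' := by
      refine le_trans ?_ hphi
      apply mul_le_mul_of_nonneg_left _ hA0.le
      apply Real.exp_le_exp.mpr
      have h2 : 0 ≤ 2 * pmin * (F'.card / ((q + 1 : ℕ) : ℝ)) := by positivity
      have h3 : 0 ≤ 2 * P2 * (R : ℝ) := by positivity
      have h4 : 2 * pmin * ((F.card - F'.card) / ((q + 1 : ℕ) : ℝ)) =
          2 * pmin * (F.card / ((q + 1 : ℕ) : ℝ)) - 2 * pmin * (F'.card / ((q + 1 : ℕ) : ℝ)) := by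
        ring
      rw [hT, h4]
      linarith
    have hphipos : 0 < phi lam F' X' := lt_of_lt_of_le (by positivity) hphi1
    have hms : ∀ c ∈ F', ms lam F' X' c ≤ P2 * phi lam F' X' := by
      intro c hcF
      have h1 : ms lam F' X' c ≤ p1 * A0 := by
        refine (ms_le_vm hlam F' X' c).trans (le_trans ?_ (hvm c (hF hcF)))
        exact_mod_cast vm_mono hX1 c
      refine h1.trans ?_
      have h2 : A0 ≤ Real.exp T * phi lam F' X' := by
        have := mul_le_mul_of_nonneg_left hphi1 (Real.exp_pos T).le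
        have h3 : Real.exp T * (A0 * Real.exp (-T)) = A0 := by
          rw [mul_comm A0, ← mul_assoc, ← Real.exp_add]
          simp
        rwa [h3] at this
      calc p1 * A0 ≤ p1 * (Real.exp T * phi lam F' X') := mul_le_mul_of_nonneg_left h2 hp1
        _ = (p1 * Real.exp T) * phi lam F' X' := by ring
        _ ≤ P2 * phi lam F' X' := mul_le_mul_of_nonneg_right hTP hphipos.le
    -- one round with `q + 1` clauses
    have hround : ∀ B ⊆ F', B.card = q + 1 →
        (∀ c ∈ B, Real.exp (-(2 * pmin)) * phi lam F' X' ≤ phi lam (F' \ B) (insert c X')) →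
        Forces q (fun U' X' => U' = R0 ∧ X ⊆ X' ∧ X' ⊆ X ∪ F ∧
          A0 * Real.exp (-T) ≤ (sols X').card) (F' ∪ R0) X' := by
      intro B hBF hBc hB
      refine forces_offer (Disjoint.mono_left hF hd) hBF (Finset.card_pos.mp (by omega))
        hBc.le fun c hcB => ?_
      have hcard' : (F' \ B).card = F'.card - B.card := Finset.card_sdiff_of_subset hBF
      have hBF' := Finset.card_le_card hBF
      refine ih _ _ (by omega) (Finset.sdiff_subset.trans hF) (hX1.trans (Finset.subset_insert _ _))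
        (Finset.insert_subset (Finset.mem_union_right _ (hF (hBF hcB))) hX2) ?_
      refine le_trans ?_ (hB c hcB)
      have h5 := mul_le_mul_of_nonneg_left hphi (Real.exp_pos (-(2 * pmin))).le
      refine le_trans (le_of_eq ?_) h5
      have h6 : ((F' \ B).card : ℝ) = F'.card - ((q + 1 : ℕ) : ℝ) := by
        rw [hcard', Nat.cast_sub hBF', hBc]
      rw [h6, show Real.exp (-(2 * pmin)) * (A0 * Real.exp (-(lam * s + 2 * pmin *
        ((F.card - F'.card) / ((q + 1 : ℕ) : ℝ))))) = A0 * (Real.exp (-(2 * pmin)) *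
        Real.exp (-(lam * s + 2 * pmin * ((F.card - F'.card) / ((q + 1 : ℕ) : ℝ))))) by ring,
        ← Real.exp_add]
      congr 2
      field_simp
      ring
    rcases pigeon F' (fun c => ms lam F' X' c / phi lam F' X') P2 pmin δ q K J
      (fun c hc => by rw [div_le_iff₀ hphipos]; exact hms c hc) h.hJ hcard with hlow | ⟨i, hi⟩
    · -- low masses
      obtain ⟨B, hBF, hBc⟩ := Finset.exists_subset_card_eq hlow
      refine hround B (hBF.trans (Finset.filter_subset _ _)) hBc fun c hcB => ?_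
      have h1 := (Finset.mem_filter.mp (hBF hcB)).2
      rw [div_le_iff₀ hphipos] at h1
      have hstep := trivial_step (sols X') (fun σ => viol σ)
        (fun σ => Real.exp (-(lam * (F' ∩ viol σ).card))) (fun σ => (Real.exp_pos _).le) B lam hlam c
      rw [← phi_step lam F' X' B (hBF.trans (Finset.filter_subset _ _)) c] at hstep
      have hstep' : phi lam F' X' - ms lam F' X' c ≤ phi lam (F' \ B) (insert c X') := hstep
      have := mul_le_mul_of_nonneg_right (exp_neg_two_le hpm h.pmin_le) hphipos.le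
      linarith
    · -- a level with many clauses
      set L := F'.filter fun c => P2 / (1 + δ) ^ (i + 1) < ms lam F' X' c / phi lam F' X' ∧
        ms lam F' X' c / phi lam F' X' ≤ P2 / (1 + δ) ^ i with hL
      have hLF : L ⊆ F' := Finset.filter_subset _ _
      have h1δ : (0 : ℝ) < 1 + δ := by have := h.δ_pos; linarith
      set hi' : ℝ := P2 / (1 + δ) ^ i * phi lam F' X' with hhi'
      have hhi0 : 0 ≤ hi' := by positivity
      set lo' : ℝ := P2 / (1 + δ) ^ (i + 1) * phi lam F' X' with hlo'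
      have hlohi : lo' = hi' / (1 + δ) := by
        rw [hlo', hhi', pow_succ]
        field_simp
      have hKL : (K : ℝ) ≤ L.card := by exact_mod_cast hi
      have hqK : ((q + 1 : ℕ) : ℝ) < K := by exact_mod_cast h.hK
      obtain ⟨B, hBL, hBc, hB⟩ := exists_level_batch (sols X') (fun σ => viol σ)
        (fun σ => Real.exp (-(lam * (F' ∩ viol σ).card))) (fun σ => (Real.exp_pos _).le) L (q + 1)
        lam lo' hi' s hlam (lt_of_lt_of_le h.hK hi) (by positivity)
        (fun σ hσ => by
          have h1 : (L ∩ viol σ).card ≤ (F ∩ viol σ).card :=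
            Finset.card_le_card (Finset.inter_subset_inter_right (hLF.trans hF))
          have h2 := hs σ (sols_mono hX1 hσ)
          exact_mod_cast h1.trans h2)
        (fun c hc => by
          have h1 := (Finset.mem_filter.mp hc).2
          rw [lt_div_iff₀ hphipos, div_le_iff₀ hphipos] at h1
          exact ⟨h1.1.le, h1.2⟩)
        (by
          have hkey := h.key
          have h2 : ((q + 1 : ℕ) : ℝ) * (s * hi') / (L.card - ((q + 1 : ℕ) : ℝ)) ≤
              ((q + 1 : ℕ) : ℝ) * s / (K - ((q + 1 : ℕ) : ℝ)) * hi' := by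
            calc ((q + 1 : ℕ) : ℝ) * (s * hi') / (L.card - ((q + 1 : ℕ) : ℝ)) ≤
                ((q + 1 : ℕ) : ℝ) * (s * hi') / (K - ((q + 1 : ℕ) : ℝ)) := by
                  apply div_le_div_of_nonneg_left (by positivity) (by linarith) (by linarith)
              _ = _ := by ring
          have h3 := mul_le_mul_of_nonneg_right hkey hhi0
          rw [hlohi]
          calc hi' + lam * (hi' + ((q + 1 : ℕ) : ℝ) * (s * hi') / (L.card - ((q + 1 : ℕ) : ℝ))) ≤
              hi' + lam * (hi' + ((q + 1 : ℕ) : ℝ) * s / (K - ((q + 1 : ℕ) : ℝ)) * hi') := by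
                have := mul_le_mul_of_nonneg_left h2 hlam
                nlinarith
            _ = (1 + lam * (1 + ((q + 1 : ℕ) : ℝ) * s / (K - ((q + 1 : ℕ) : ℝ)))) * hi' := by ring
            _ ≤ lam * ((q + 1 : ℕ) : ℝ) / (1 + δ) * hi' := h3
            _ = lam * ((q + 1 : ℕ) : ℝ) * (hi' / (1 + δ)) := by ring)
      refine hround B (hBL.trans hLF) hBc fun c hcB => ?_
      have hstep := hB c hcB
      rw [← phi_step lam F' X' B (hBL.trans hLF) c] at hstep
      have hstep' : phi lam F' X' ≤ phi lam (F' \ B) (insert c X') := hstep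
      refine le_trans ?_ hstep'
      have : Real.exp (-(2 * pmin)) ≤ 1 := Real.exp_le_one_iff.mpr (by linarith)
      nlinarith

/-- **The sub-block lemma.** -/
theorem subblock (h : SB q lam δ P2 pmin s K J R) (R0 F X : Finset (Clause n))
    (hd : Disjoint F R0) (p1 T : ℝ) (hA : 0 < (sols X).card)
    (hvm : ∀ c ∈ F, (vm X c : ℝ) ≤ p1 * (sols X).card)
    (hs : ∀ σ ∈ sols X, (F ∩ viol σ).card ≤ s)
    (hT : T = lam * s + 2 * pmin * (F.card / ((q + 1 : ℕ) : ℝ)) + 2 * P2 * R)
    (hTP : p1 * Real.exp T ≤ P2) (hp1 : 0 ≤ p1) :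
    Forces q (fun U' X' => U' = R0 ∧ X ⊆ X' ∧ X' ⊆ X ∪ F ∧
      ((sols X).card : ℝ) * Real.exp (-T) ≤ (sols X').card) (F ∪ R0) X := by
  refine phase_one h R0 F X hd p1 T (sols X).card (by exact_mod_cast hA) hvm hs hT hTP hp1 F.card
    F X le_rfl (Finset.Subset.refl _) (Finset.Subset.refl _) Finset.subset_union_left ?_
  unfold phi
  rw [sub_self, zero_div, mul_zero, add_zero, ← nsmul_eq_mul]
  apply Finset.card_nsmul_le_sum
  intro σ hσ
  apply Real.exp_le_exp.mpr
  have h1 : ((F ∩ viol σ).card : ℝ) ≤ s := by exact_mod_cast hs σ hσ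
  have := mul_le_mul_of_nonneg_left h1 h.lam_pos.le
  linarith

end Main

end Pool.Agent.W_MP_fefad7_co.CWSharp
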